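import Pool.Agent.H306R2.SM.Defs
import Pool.Agent.H306R2.ZetaGrowth

set_option autoImplicit false

/-!
# Sixth moment of zeta, task T5 (`B_part`)
-/

namespace Pool.Agent.H831R2.SMT5

open Finset Filter Topology MeasureTheory Complex Pool.Agent.H306R2 Pool.Agent.H306R2.SM

noncomputable section

/-! ### Gamma integrals with natural exponents -/

lemma tendsto_pow_exp (b : ℝ) (hb : 0 < b) (n : ℕ) :
    Tendsto (fun t : ℝ => t ^ n * Real.exp (-(b * t))) atTop (𝓝 0) := by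
  have h1 := (Real.tendsto_pow_mul_exp_neg_atTop_nhds_zero n).comp
    (tendsto_id.const_mul_atTop hb)
  have h2 := h1.const_mul ((b ^ n)⁻¹)
  rw [mul_zero] at h2
  refine h2.congr fun t => ?_
  simp only [Function.comp_apply, id]
  rw [mul_pow]
  field_simp

lemma integrableOn_pow_exp_real (b : ℝ) (hb : 0 < b) (k : ℕ) :
    IntegrableOn (fun t : ℝ => t ^ k * Real.exp (-(b * t))) (Set.Ioi 0) := by
  have h := integrableOn_rpow_mul_exp_neg_mul_rpow (p := 1) (s := (k : ℝ)) (b := b)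
    (by have := Nat.cast_nonneg (α := ℝ) k; linarith) one_pos hb
  refine h.congr_fun (fun t _ => ?_) measurableSet_Ioi
  simp only [Real.rpow_natCast, Real.rpow_one, neg_mul]

lemma norm_pow_exp (r : ℂ) (k : ℕ) (t : ℝ) (ht : 0 ≤ t) :
    ‖(t : ℂ) ^ k * cexp (-(r * t))‖ = t ^ k * Real.exp (-(r.re * t)) := by
  rw [norm_mul, norm_pow, Complex.norm_real, Real.norm_eq_abs, abs_of_nonneg ht, Complex.norm_exp,
    Complex.neg_re, Complex.re_mul_ofReal]

lemma integrableOn_pow_exp (r : ℂ) (hr : 0 < r.re) (k : ℕ) :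
    IntegrableOn (fun t : ℝ => (t : ℂ) ^ k * cexp (-(r * t))) (Set.Ioi 0) := by
  refine Integrable.mono' (integrableOn_pow_exp_real r.re hr k)
    (Continuous.aestronglyMeasurable (by fun_prop)) ?_
  filter_upwards [ae_restrict_mem measurableSet_Ioi] with t ht
  exact (norm_pow_exp r k t (le_of_lt ht)).le

lemma integral_pow_exp (r : ℂ) (hr : 0 < r.re) (k : ℕ) :
    ∫ t in Set.Ioi (0 : ℝ), (t : ℂ) ^ k * cexp (-(r * t)) = (k.factorial : ℂ) / r ^ (k + 1) := by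
  have hr0 : r ≠ 0 := by
    rintro rfl
    simp at hr
  induction k with
  | zero =>
    have h := integral_exp_mul_complex_Ioi (a := -r) (by simpa using hr) 0
    simp only [pow_zero, one_mul, Nat.factorial_zero, Nat.cast_one, zero_add, pow_one]
    have e : ∀ t : ℝ, cexp (-(r * t)) = cexp (-r * t) := fun t => by rw [neg_mul]
    simp_rw [e]
    rw [h]
    simp
  | succ k ih =>
    have hder : ∀ t ∈ Set.Ici (0 : ℝ), HasDerivAt (fun t : ℝ => (t : ℂ) ^ (k + 1) * cexp (-(r * t)))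
        ((k + 1) * ((t : ℂ) ^ k * cexp (-(r * t))) - r * ((t : ℂ) ^ (k + 1) * cexp (-(r * t)))) t := by
      intro t _
      have h1 : HasDerivAt (fun z : ℂ => z ^ (k + 1) * cexp (-(r * z)))
          ((((k + 1 : ℕ) : ℂ) * (t : ℂ) ^ k) * cexp (-(r * t)) +
            (t : ℂ) ^ (k + 1) * (cexp (-(r * t)) * (-(r * 1)))) (t : ℂ) :=
        (hasDerivAt_pow (k + 1) (t : ℂ)).mul
          ((((hasDerivAt_id (t : ℂ)).const_mul r).neg).cexp)
      have h2 := h1.comp_ofReal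
      convert h2 using 1
      push_cast
      ring
    have hi1 := (integrableOn_pow_exp r hr k).const_mul ((k : ℂ) + 1)
    have hi2 := (integrableOn_pow_exp r hr (k + 1)).const_mul r
    have htend : Tendsto (fun t : ℝ => (t : ℂ) ^ (k + 1) * cexp (-(r * t))) atTop (𝓝 0) := by
      rw [tendsto_zero_iff_norm_tendsto_zero]
      refine (tendsto_pow_exp r.re hr (k + 1)).congr' ?_
      filter_upwards [eventually_ge_atTop 0] with t ht
      exact (norm_pow_exp r (k + 1) t ht).symm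
    have h := integral_Ioi_of_hasDerivAt_of_tendsto' hder (hi1.sub hi2) htend
    rw [integral_sub hi1 hi2, integral_const_mul, integral_const_mul, ih] at h
    simp only [ofReal_zero, ne_eq, Nat.add_eq_zero_iff, one_ne_zero, and_false, not_false_eq_true,
      zero_pow, zero_mul, sub_zero] at h
    have h3 : r * ∫ t in Set.Ioi (0 : ℝ), (t : ℂ) ^ (k + 1) * cexp (-(r * t)) =
        (k + 1) * ((k.factorial : ℂ) / r ^ (k + 1)) := by
      linear_combination -h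
    apply mul_left_cancel₀ hr0
    rw [h3, Nat.factorial_succ]
    push_cast
    field_simp
    ring

lemma om_nonneg (k : ℕ) (δ t : ℝ) (hδ : 0 ≤ δ) (ht : 0 ≤ t) : 0 ≤ om k δ t := by
  unfold om
  positivity

lemma om_ef (k : ℕ) (δ θ t : ℝ) : (om k δ t : ℂ) * ef θ t =
    ((δ ^ (k + 1) / (k.factorial : ℝ) : ℝ) : ℂ) *
      ((t : ℂ) ^ k * cexp (-(((δ : ℂ) - θ * I) * t))) := by
  unfold om ef
  have e : -(((δ : ℂ) - θ * I) * t) = -(δ * t) + (((θ * t : ℝ) : ℂ) * I) := by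
    push_cast
    ring
  rw [e, Complex.exp_add]
  push_cast
  ring

lemma om_ef_integral (k : ℕ) (δ : ℝ) (hδ : 0 < δ) (θ : ℝ) :
    ∫ t in Set.Ioi (0 : ℝ), (om k δ t : ℂ) * ef θ t = ((δ : ℂ) / ((δ : ℂ) - θ * I)) ^ (k + 1) := by
  have hr : 0 < ((δ : ℂ) - θ * I).re := by simpa using hδ
  have hf : (k.factorial : ℂ) ≠ 0 := by exact_mod_cast k.factorial_ne_zero
  simp_rw [om_ef]
  rw [integral_const_mul, integral_pow_exp _ hr, div_pow]
  push_cast
  field_simp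

lemma om_ef_integrable (k : ℕ) (δ : ℝ) (hδ : 0 < δ) (θ : ℝ) :
    IntegrableOn (fun t : ℝ => (om k δ t : ℂ) * ef θ t) (Set.Ioi 0) := by
  have hr : 0 < ((δ : ℂ) - θ * I).re := by simpa using hδ
  simp_rw [om_ef]
  exact (integrableOn_pow_exp _ hr k).const_mul _

lemma om_ef_norm_le (k : ℕ) (δ : ℝ) (hδ : 0 < δ) (θ : ℝ) (hθ : θ ≠ 0) :
    ‖∫ t in Set.Ioi (0 : ℝ), (om k δ t : ℂ) * ef θ t‖ ≤ (δ / |θ|) ^ (k + 1) := by
  rw [om_ef_integral k δ hδ θ, norm_pow, norm_div, Complex.norm_real, Real.norm_eq_abs,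
    abs_of_pos hδ]
  apply pow_le_pow_left₀ (by positivity)
  apply div_le_div_of_nonneg_left hδ.le (abs_pos.mpr hθ)
  have := Complex.abs_im_le_norm ((δ : ℂ) - θ * I)
  simpa using this

lemma ef_zero (t : ℝ) : ef 0 t = 1 := by simp [ef]

lemma om_integral (k : ℕ) (δ : ℝ) (hδ : 0 < δ) : ∫ t in Set.Ioi (0 : ℝ), (om k δ t : ℂ) = 1 := by
  have h := om_ef_integral k δ hδ 0
  simp only [ef_zero, mul_one, ofReal_zero, zero_mul, sub_zero] at h
  rw [h, div_self (by exact_mod_cast hδ.ne'), one_pow]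

lemma om_integrable (k : ℕ) (δ : ℝ) (hδ : 0 < δ) : IntegrableOn (om k δ) (Set.Ioi 0) := by
  have h : IntegrableOn (fun t : ℝ => δ ^ (k + 1) / (k.factorial : ℝ) *
      (t ^ k * Real.exp (-(δ * t)))) (Set.Ioi 0) :=
    (integrableOn_pow_exp_real δ hδ k).const_mul (δ ^ (k + 1) / (k.factorial : ℝ))
  refine h.congr_fun (fun t _ => ?_) measurableSet_Ioi
  unfold om
  ring

lemma om_integral_real (k : ℕ) (δ : ℝ) (hδ : 0 < δ) : ∫ t in Set.Ioi (0 : ℝ), om k δ t = 1 := by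
  have h := om_integral k δ hδ
  rw [integral_complex_ofReal] at h
  exact_mod_cast h

/-- integrability against functions of polynomial growth -/
lemma om_mul_integrable (k : ℕ) (δ : ℝ) (hδ : 0 < δ) (h : ℝ → ℂ) (hc : Continuous h) (C : ℝ)
    (a : ℕ) (hb : ∀ t, 0 ≤ t → ‖h t‖ ≤ C * (1 + t) ^ a) :
    IntegrableOn (fun t : ℝ => (om k δ t : ℂ) * h t) (Set.Ioi 0) := by
  have hC : 0 ≤ C := by
    have := (norm_nonneg _).trans (hb 0 le_rfl)
    simpa using this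
  have h1 : IntegrableOn (fun t : ℝ => C * 2 ^ (a - 1) * (δ ^ (k + 1) / (k.factorial : ℝ)) *
      (t ^ k * Real.exp (-(δ * t)) + t ^ (k + a) * Real.exp (-(δ * t)))) (Set.Ioi 0) :=
    ((integrableOn_pow_exp_real δ hδ k).add (integrableOn_pow_exp_real δ hδ (k + a))).const_mul _
  refine Integrable.mono' h1 (Continuous.aestronglyMeasurable ?_) ?_
  · unfold om
    fun_prop
  · filter_upwards [ae_restrict_mem measurableSet_Ioi] with t ht
    have ht0 : 0 ≤ t := le_of_lt ht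
    rw [norm_mul, Complex.norm_real, Real.norm_eq_abs, abs_of_nonneg (om_nonneg k δ t hδ.le ht0)]
    calc om k δ t * ‖h t‖ ≤ om k δ t * (C * (2 ^ (a - 1) * (1 ^ a + t ^ a))) := by
          apply mul_le_mul_of_nonneg_left _ (om_nonneg k δ t hδ.le ht0)
          refine (hb t ht0).trans (mul_le_mul_of_nonneg_left ?_ hC)
          exact add_pow_le zero_le_one ht0 a
      _ = _ := by
          unfold om
          rw [pow_add, one_pow]
          ring

/-! ### The shift of the contour -/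

lemma shift (f : ℂ → ℂ) (g : ℝ → ℝ)
    (hf : DifferentiableOn ℂ f {s | 1 / 2 ≤ s.re ∧ s.re ≤ 3 ∧ 1 ≤ s.im})
    (hg : Tendsto g atTop (𝓝 0))
    (hfg : ∀ s : ℂ, 1 / 2 ≤ s.re → s.re ≤ 3 → 1 ≤ s.im → ‖f s‖ ≤ g s.im)
    (h1 : IntegrableOn (fun y : ℝ => f (((1 / 2 : ℝ) : ℂ) + y * I)) (Set.Ioi 1))
    (h2 : IntegrableOn (fun y : ℝ => f (((3 : ℝ) : ℂ) + y * I)) (Set.Ioi 1)) :
    ‖∫ y in Set.Ioi (1 : ℝ), f (((1 / 2 : ℝ) : ℂ) + y * I)‖ ≤
      ‖∫ y in Set.Ioi (1 : ℝ), f (((3 : ℝ) : ℂ) + y * I)‖ + 5 / 2 * g 1 := by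
  -- rectangles
  have hrect : ∀ R : ℝ, 1 ≤ R →
      (∫ y in (1 : ℝ)..R, f (((1 / 2 : ℝ) : ℂ) + y * I)) =
        (∫ y in (1 : ℝ)..R, f (((3 : ℝ) : ℂ) + y * I)) -
          I * ((∫ x in (1 / 2 : ℝ)..3, f (x + ((1 : ℝ) : ℂ) * I)) -
            ∫ x in (1 / 2 : ℝ)..3, f (x + (R : ℂ) * I)) := by
    intro R hR
    have h := Complex.integral_boundary_rect_eq_zero_of_differentiableOn f
      (⟨1 / 2, 1⟩ : ℂ) (⟨3, R⟩ : ℂ) (hf.mono (by
        intro s hs
        rw [Complex.mem_reProdIm] at hs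
        simp only at hs
        rw [Set.uIcc_of_le (by norm_num), Set.uIcc_of_le hR] at hs
        exact ⟨hs.1.1, hs.1.2, hs.2.1⟩))
    simp only [smul_eq_mul] at h
    have hI : I * I = -1 := Complex.I_mul_I
    linear_combination I * h + ((∫ y in (1 : ℝ)..R, f (((1 / 2 : ℝ) : ℂ) + y * I)) -
      ∫ y in (1 : ℝ)..R, f (((3 : ℝ) : ℂ) + y * I)) * hI
  have ht1 := intervalIntegral_tendsto_integral_Ioi 1 h1 tendsto_id
  have ht2 := intervalIntegral_tendsto_integral_Ioi 1 h2 tendsto_id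
  have htop : Tendsto (fun R : ℝ => ∫ x in (1 / 2 : ℝ)..3, f (x + (R : ℂ) * I)) atTop (𝓝 0) := by
    rw [tendsto_zero_iff_norm_tendsto_zero]
    have h3 : Tendsto (fun R => g R * |3 - (1 / 2 : ℝ)|) atTop (𝓝 0) := by
      have := hg.mul_const |3 - (1 / 2 : ℝ)|
      rwa [zero_mul] at this
    refine squeeze_zero' (Filter.Eventually.of_forall fun R => norm_nonneg _) ?_ h3
    filter_upwards [eventually_ge_atTop 1] with R hR
    apply intervalIntegral.norm_integral_le_of_norm_le_const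
    intro x hx
    rw [Set.uIoc_of_le (by norm_num)] at hx
    have e1 : ((x : ℂ) + (R : ℂ) * I).re = x := by simp
    have e2 : ((x : ℂ) + (R : ℂ) * I).im = R := by simp
    have := hfg ((x : ℂ) + (R : ℂ) * I) (by rw [e1]; exact hx.1.le) (by rw [e1]; exact hx.2)
      (by rw [e2]; exact hR)
    rwa [e2] at this
  have hlim : (∫ y in Set.Ioi (1 : ℝ), f (((1 / 2 : ℝ) : ℂ) + y * I)) =
      (∫ y in Set.Ioi (1 : ℝ), f (((3 : ℝ) : ℂ) + y * I)) -
        I * ((∫ x in (1 / 2 : ℝ)..3, f (x + ((1 : ℝ) : ℂ) * I)) - 0) := by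
    refine tendsto_nhds_unique ht1 ?_
    refine Tendsto.congr' ?_ (ht2.sub ((tendsto_const_nhds.sub htop).const_mul I))
    filter_upwards [eventually_ge_atTop 1] with R hR
    exact (hrect R hR).symm
  rw [hlim, sub_zero]
  refine (norm_sub_le _ _).trans ?_
  apply add_le_add le_rfl
  rw [norm_mul, Complex.norm_I, one_mul]
  have h5 : ‖∫ x in (1 / 2 : ℝ)..3, f (x + ((1 : ℝ) : ℂ) * I)‖ ≤ g 1 * |3 - (1 / 2 : ℝ)| := by
    apply intervalIntegral.norm_integral_le_of_norm_le_const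
    intro x hx
    rw [Set.uIoc_of_le (by norm_num)] at hx
    have e1 : ((x : ℂ) + ((1 : ℝ) : ℂ) * I).re = x := by simp
    have e2 : ((x : ℂ) + ((1 : ℝ) : ℂ) * I).im = 1 := by simp
    have := hfg ((x : ℂ) + ((1 : ℝ) : ℂ) * I) (by rw [e1]; exact hx.1.le) (by rw [e1]; exact hx.2)
      (by rw [e2])
    rwa [e2] at this
  have e3 : |3 - (1 / 2 : ℝ)| = 5 / 2 := by norm_num
  rw [e3] at h5
  linarith

/-! ### The analytic weight -/

/-- `om` as an entire function of `s = 1/2 + it` -/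
def Wf (k : ℕ) (δ : ℝ) (s : ℂ) : ℂ :=
  ((δ ^ (k + 1) / (k.factorial : ℝ) : ℝ) : ℂ) * ((-I * (s - 1 / 2)) ^ k *
    cexp (-(δ * (-I * (s - 1 / 2)))))

lemma Wf_cl (k : ℕ) (δ t : ℝ) : Wf k δ (cl t) = (om k δ t : ℂ) := by
  have e : -I * (cl t - 1 / 2) = (t : ℂ) := by
    unfold cl
    linear_combination -(t : ℂ) * Complex.I_mul_I
  unfold Wf
  rw [e]
  unfold om
  push_cast
  ring

lemma Wf_differentiable (k : ℕ) (δ : ℝ) : Differentiable ℂ (Wf k δ) := by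
  unfold Wf
  fun_prop

lemma Wf_norm (k : ℕ) (δ : ℝ) (hδ : 0 ≤ δ) (s : ℂ) :
    ‖Wf k δ s‖ = δ ^ (k + 1) / (k.factorial : ℝ) * (‖s - 1 / 2‖ ^ k * Real.exp (-(δ * s.im))) := by
  unfold Wf
  rw [norm_mul, Complex.norm_real, Real.norm_eq_abs, abs_of_nonneg (by positivity), norm_mul,
    norm_pow, norm_mul, norm_neg, Complex.norm_I, one_mul, Complex.norm_exp]
  congr 3
  rw [Complex.neg_re, Complex.re_ofReal_mul]
  simp

/-- the basic bound to the right of the critical line -/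
lemma Wf_norm_le (k : ℕ) (δ : ℝ) (hδ : 0 ≤ δ) (s : ℂ) (h1 : 1 / 2 ≤ s.re) (h2 : s.re ≤ 3)
    (h3 : 0 ≤ s.im) : ‖Wf k δ s‖ ≤ Real.exp (5 / 2 * δ) * om k δ (s.im + 5 / 2) := by
  rw [Wf_norm k δ hδ]
  have h4 : ‖s - 1 / 2‖ ≤ s.im + 5 / 2 := by
    refine (Complex.norm_le_abs_re_add_abs_im _).trans ?_
    have e1 : (s - 1 / 2).re = s.re - 1 / 2 := by simp
    have e2 : (s - 1 / 2).im = s.im := by simp
    rw [e1, e2, abs_of_nonneg (by linarith), abs_of_nonneg h3]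
    linarith
  have h5 : Real.exp (5 / 2 * δ) * Real.exp (-(δ * (s.im + 5 / 2))) = Real.exp (-(δ * s.im)) := by
    rw [← Real.exp_add]
    congr 1
    ring
  unfold om
  calc δ ^ (k + 1) / (k.factorial : ℝ) * (‖s - 1 / 2‖ ^ k * Real.exp (-(δ * s.im)))
      ≤ δ ^ (k + 1) / (k.factorial : ℝ) * ((s.im + 5 / 2) ^ k * Real.exp (-(δ * s.im))) := by
        gcongr
    _ = _ := by
        rw [← h5]
        ring

/-! ### The Dirichlet series -/

lemma d3_nonneg (n : ℕ) : 0 ≤ d3 n := dv_nonneg (by norm_num) n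

lemma d3_le (n : ℕ) : d3 n ≤ (n : ℝ) ^ 3 := by
  have h := PB_dA (α := 3) (by norm_num) (J := 3) (by norm_num) n
  exact (le_abs_self _).trans h

lemma d3_zero : d3 0 = 0 := by
  have h := d3_le 0
  have h2 := d3_nonneg 0
  simp at h
  linarith

lemma zeta_hasSum (s : ℂ) (hs : 1 < s.re) :
    HasSum (fun n : ℕ => (d3 n : ℂ) * (n : ℂ) ^ (-s)) (riemannZeta s ^ 3) := by
  have h := zetaA_hasSum 3 1 1 (by
    intro n hn
    rw [ArithmeticFunction.one_apply_ne]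
    rintro rfl
    simp at hn) s hs
  have h2 : Dp (1 : ArithmeticFunction ℝ) 1 s = 1 := by
    unfold Dp; simp
  rw [h2, mul_one, mul_one] at h
  refine h.congr_fun ?_
  intro n
  rw [← dA_nat 3]
  rfl

/-- the Dirichlet polynomial -/
def Pp (N : ℕ) (s : ℂ) : ℂ := ∑ m ∈ range N, (d3 m : ℂ) * (m : ℂ) ^ (-s)

/-- the remainder -/
def gg (N : ℕ) (s : ℂ) : ℂ := riemannZeta s ^ 3 - Pp N s

lemma norm_cpow_neg (m : ℕ) (hm : 0 < m) (s : ℂ) : ‖(m : ℂ) ^ (-s)‖ = (m : ℝ) ^ (-s.re) := by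
  rw [Complex.norm_natCast_cpow_of_pos hm, Complex.neg_re]

lemma Pp_norm_le (N : ℕ) (s : ℂ) (hs : 0 ≤ s.re) : ‖Pp N s‖ ≤ (N : ℝ) ^ 4 := by
  unfold Pp
  calc ‖∑ m ∈ range N, (d3 m : ℂ) * (m : ℂ) ^ (-s)‖
      ≤ ∑ m ∈ range N, ‖(d3 m : ℂ) * (m : ℂ) ^ (-s)‖ := norm_sum_le _ _
    _ ≤ ∑ _m ∈ range N, (N : ℝ) ^ 3 := by
        refine sum_le_sum fun m hm => ?_
        rw [mem_range] at hm
        rcases Nat.eq_zero_or_pos m with rfl | hm0
        · rw [d3_zero]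
          simp
        · rw [norm_mul, Complex.norm_real, Real.norm_eq_abs, abs_of_nonneg (d3_nonneg m),
            norm_cpow_neg m hm0]
          have h1 : (m : ℝ) ^ (-s.re) ≤ 1 := by
            apply Real.rpow_le_one_of_one_le_of_nonpos
            · exact_mod_cast hm0
            · linarith
          have h2 : (m : ℝ) ≤ N := by exact_mod_cast hm.le
          calc d3 m * (m : ℝ) ^ (-s.re) ≤ (m : ℝ) ^ 3 * 1 := by
                apply mul_le_mul (d3_le m) h1 (by positivity) (by positivity)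
            _ = (m : ℝ) ^ 3 := mul_one _
            _ ≤ (N : ℝ) ^ 3 := by gcongr
    _ = (N : ℝ) ^ 4 := by
        rw [sum_const, card_range, nsmul_eq_mul]
        ring

lemma Pp_differentiableAt (N : ℕ) (s : ℂ) : DifferentiableAt ℂ (Pp N) s := by
  unfold Pp
  apply DifferentiableAt.fun_sum
  intro m _
  rcases Nat.eq_zero_or_pos m with rfl | hm0
  · rw [d3_zero]
    simp
  · apply DifferentiableAt.const_mul
    apply DifferentiableAt.const_cpow differentiableAt_id.neg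
    left
    exact_mod_cast hm0.ne'

/-- the constant `∑ d3(m) m^{-2}` -/
def C2 : ℝ := ∑' m : ℕ, d3 m * (m : ℝ) ^ (-2 : ℝ)

lemma summable_two : Summable (fun m : ℕ => d3 m * (m : ℝ) ^ (-2 : ℝ)) := by
  have h := (zeta_hasSum 2 (by norm_num)).summable.norm
  refine h.congr fun m => ?_
  rcases Nat.eq_zero_or_pos m with rfl | hm0
  · rw [d3_zero]
    simp
  · rw [norm_mul, Complex.norm_real, Real.norm_eq_abs, abs_of_nonneg (d3_nonneg m),
      norm_cpow_neg m hm0]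
    norm_num

lemma C2_nonneg : 0 ≤ C2 := tsum_nonneg fun m => mul_nonneg (d3_nonneg m) (by positivity)

lemma gg_right (N : ℕ) (hN : 0 < N) (s : ℂ) (hs : s.re = 3) : ‖gg N s‖ ≤ C2 / N := by
  have h := zeta_hasSum s (by rw [hs]; norm_num)
  have h1 : gg N s = ∑' m : ℕ, (d3 (m + N) : ℂ) * ((m + N : ℕ) : ℂ) ^ (-s) := by
    unfold gg Pp
    rw [← h.tsum_eq, ← h.summable.sum_add_tsum_nat_add N]
    ring
  rw [h1]
  have hs2 := (summable_nat_add_iff N).2 summable_two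
  have hb : ∀ m : ℕ, ‖(d3 (m + N) : ℂ) * ((m + N : ℕ) : ℂ) ^ (-s)‖ ≤
      (d3 (m + N) * ((m + N : ℕ) : ℝ) ^ (-2 : ℝ)) / N := by
    intro m
    have hm0 : 0 < m + N := by omega
    have hpos : (0 : ℝ) < ((m + N : ℕ) : ℝ) := by exact_mod_cast hm0
    rw [norm_mul, Complex.norm_real, Real.norm_eq_abs, abs_of_nonneg (d3_nonneg _),
      norm_cpow_neg _ hm0, hs, mul_div_assoc]
    apply mul_le_mul_of_nonneg_left _ (d3_nonneg _)
    have e : ((m + N : ℕ) : ℝ) ^ (-3 : ℝ) = ((m + N : ℕ) : ℝ) ^ (-2 : ℝ) / ((m + N : ℕ) : ℝ) := by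
      rw [show (-3 : ℝ) = -2 - 1 by norm_num, Real.rpow_sub hpos, Real.rpow_one]
    rw [e]
    apply div_le_div_of_nonneg_left (by positivity) (by exact_mod_cast hN)
    push_cast
    linarith [(Nat.cast_nonneg m : (0 : ℝ) ≤ m)]
  calc ‖∑' m : ℕ, (d3 (m + N) : ℂ) * ((m + N : ℕ) : ℂ) ^ (-s)‖
      ≤ ∑' m : ℕ, (d3 (m + N) * ((m + N : ℕ) : ℝ) ^ (-2 : ℝ)) / N :=
        tsum_of_norm_bounded (hs2.div_const _).hasSum hb
    _ = (∑' m : ℕ, (d3 (m + N) * ((m + N : ℕ) : ℝ) ^ (-2 : ℝ))) / N := tsum_div_const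
    _ ≤ C2 / N := by
        apply div_le_div_of_nonneg_right _ (by positivity)
        unfold C2
        rw [← summable_two.sum_add_tsum_nat_add N]
        have : 0 ≤ ∑ i ∈ range N, d3 i * (i : ℝ) ^ (-2 : ℝ) :=
          sum_nonneg fun m _ => mul_nonneg (d3_nonneg m) (by positivity)
        linarith

/-- growth of the remainder -/
lemma gg_norm_le (N : ℕ) (s : ℂ) (h1 : 1 / 2 ≤ s.re) (h2 : s.re ≤ 3) (h3 : 0 ≤ s.im)
    (h4 : 1 / 2 ≤ ‖s - 1‖) :
    ‖gg N s‖ ≤ (216 * 4 ^ 6 + (N : ℝ) ^ 4) * (1 + s.im) ^ 6 := by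
  have hz := zeta_norm_le h1 h4
  have hs : ‖s‖ ≤ 3 + s.im := by
    refine (Complex.norm_le_abs_re_add_abs_im _).trans ?_
    rw [abs_of_nonneg (by linarith), abs_of_nonneg h3]
    linarith
  have h5 : ‖riemannZeta s‖ ≤ 6 * (4 * (1 + s.im)) ^ 2 := by
    refine hz.trans ?_
    gcongr
    linarith
  have h6 : ‖riemannZeta s ^ 3‖ ≤ 216 * 4 ^ 6 * (1 + s.im) ^ 6 := by
    rw [norm_pow]
    calc ‖riemannZeta s‖ ^ 3 ≤ (6 * (4 * (1 + s.im)) ^ 2) ^ 3 :=
          pow_le_pow_left₀ (norm_nonneg _) h5 3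
      _ = _ := by ring
  have h7 : (1 : ℝ) ≤ (1 + s.im) ^ 6 := one_le_pow₀ (by linarith)
  have h8 := Pp_norm_le N s (by linarith)
  unfold gg
  calc ‖riemannZeta s ^ 3 - Pp N s‖ ≤ ‖riemannZeta s ^ 3‖ + ‖Pp N s‖ := norm_sub_le _ _
    _ ≤ 216 * 4 ^ 6 * (1 + s.im) ^ 6 + (N : ℝ) ^ 4 * (1 + s.im) ^ 6 := by
        apply add_le_add h6
        calc ‖Pp N s‖ ≤ (N : ℝ) ^ 4 * 1 := by rw [mul_one]; exact h8
          _ ≤ (N : ℝ) ^ 4 * (1 + s.im) ^ 6 := by gcongr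
    _ = _ := by ring

/-! ### The integrand -/

lemma cl_re (t : ℝ) : (cl t).re = 1 / 2 := by simp [cl]

lemma cl_im (t : ℝ) : (cl t).im = t := by simp [cl]

lemma cl_sub_one (t : ℝ) : 1 / 2 ≤ ‖cl t - 1‖ := by
  have h := Complex.abs_re_le_norm (cl t - 1)
  have e : (cl t - 1).re = -(1 / 2) := by
    rw [Complex.sub_re, cl_re, Complex.one_re]
    norm_num
  rw [e, abs_neg, abs_of_pos (by norm_num : (0 : ℝ) < 1 / 2)] at h
  exact h

lemma cl_ne_one (t : ℝ) : cl t ≠ 1 := by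
  intro h
  have := cl_re t
  rw [h, Complex.one_re] at this
  norm_num at this

lemma cl_continuous : Continuous cl := by
  unfold cl
  fun_prop

lemma gg_continuousAt (N : ℕ) (s : ℂ) (hs : s ≠ 1) : DifferentiableAt ℂ (gg N) s := by
  unfold gg
  exact ((differentiableAt_riemannZeta hs).pow 3).sub (Pp_differentiableAt N s)

lemma gg_cl_continuous (N : ℕ) : Continuous (fun t : ℝ => gg N (cl t)) := by
  rw [continuous_iff_continuousAt]
  intro t
  exact ContinuousAt.comp (gg_continuousAt N _ (cl_ne_one t)).continuousAt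
    cl_continuous.continuousAt

lemma ef_continuous (θ : ℝ) : Continuous (ef θ) := by
  unfold ef
  fun_prop

lemma ef_norm (θ t : ℝ) : ‖ef θ t‖ = 1 := by
  unfold ef
  exact Complex.norm_exp_ofReal_mul_I _

/-- the integrand, analytic version -/
def ff (k : ℕ) (δ : ℝ) (n N : ℕ) (s : ℂ) : ℂ :=
  Wf k δ s * gg N s * cexp ((s - 1 / 2) * (Real.log n : ℂ))

lemma ff_cl (k : ℕ) (δ : ℝ) (n N : ℕ) (t : ℝ) :
    ff k δ n N (cl t) = (om k δ t : ℂ) * (gg N (cl t) * ef (Real.log n) t) := by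
  unfold ff ef
  rw [Wf_cl, mul_assoc]
  congr 3
  unfold cl
  push_cast
  ring

lemma exp_norm (n : ℕ) (hn : 1 ≤ n) (s : ℂ) (hs : s.re ≤ 3) :
    ‖cexp ((s - 1 / 2) * (Real.log n : ℂ))‖ ≤ (n : ℝ) ^ (5 / 2 : ℝ) := by
  have hn0 : (0 : ℝ) < n := by exact_mod_cast hn
  rw [Complex.norm_exp, Complex.re_mul_ofReal, Real.rpow_def_of_pos hn0]
  apply Real.exp_le_exp.mpr
  rw [mul_comm]
  apply mul_le_mul_of_nonneg_left _ (Real.log_nonneg (by exact_mod_cast hn))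
  have : (s - 1 / 2).re = s.re - 1 / 2 := by simp
  rw [this]
  linarith

/-- the majorant -/
def mj (k : ℕ) (δ : ℝ) (n N : ℕ) (τ : ℝ) : ℝ :=
  (Real.exp (5 / 2 * δ) * (δ ^ (k + 1) / (k.factorial : ℝ)) * (216 * 4 ^ 6 + (N : ℝ) ^ 4) *
    (n : ℝ) ^ (5 / 2 : ℝ)) * ((τ + 5 / 2) ^ (k + 6) * Real.exp (-(δ * (τ + 5 / 2))))

lemma mj_tendsto (k : ℕ) (δ : ℝ) (hδ : 0 < δ) (n N : ℕ) :
    Tendsto (mj k δ n N) atTop (𝓝 0) := by
  have h := ((tendsto_pow_exp δ hδ (k + 6)).comp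
    (tendsto_atTop_add_const_right atTop (5 / 2 : ℝ) tendsto_id)).const_mul
    (Real.exp (5 / 2 * δ) * (δ ^ (k + 1) / (k.factorial : ℝ)) * (216 * 4 ^ 6 + (N : ℝ) ^ 4) *
    (n : ℝ) ^ (5 / 2 : ℝ))
  rw [mul_zero] at h
  exact h

lemma ff_norm_le (k : ℕ) (δ : ℝ) (hδ : 0 < δ) (n N : ℕ) (hn : 1 ≤ n) (s : ℂ)
    (h1 : 1 / 2 ≤ s.re) (h2 : s.re ≤ 3) (h3 : 1 ≤ s.im) : ‖ff k δ n N s‖ ≤ mj k δ n N s.im := by
  have h4 : 1 / 2 ≤ ‖s - 1‖ := by
    have h := Complex.abs_im_le_norm (s - 1)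
    have e : (s - 1).im = s.im := by simp
    rw [e, abs_of_nonneg (by linarith)] at h
    linarith
  unfold ff
  rw [norm_mul, norm_mul]
  have hW := Wf_norm_le k δ hδ.le s h1 h2 (by linarith)
  have hG := gg_norm_le N s h1 h2 (by linarith) h4
  have hE := exp_norm n hn s h2
  have hom : 0 ≤ om k δ (s.im + 5 / 2) := om_nonneg k δ _ hδ.le (by linarith)
  calc ‖Wf k δ s‖ * ‖gg N s‖ * ‖cexp ((s - 1 / 2) * (Real.log n : ℂ))‖
      ≤ (Real.exp (5 / 2 * δ) * om k δ (s.im + 5 / 2)) *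
          ((216 * 4 ^ 6 + (N : ℝ) ^ 4) * (1 + s.im) ^ 6) * (n : ℝ) ^ (5 / 2 : ℝ) := by
        gcongr
    _ ≤ (Real.exp (5 / 2 * δ) * om k δ (s.im + 5 / 2)) *
          ((216 * 4 ^ 6 + (N : ℝ) ^ 4) * (s.im + 5 / 2) ^ 6) * (n : ℝ) ^ (5 / 2 : ℝ) := by
        gcongr _ * (_ * ?_ ^ 6) * _
        linarith
    _ = mj k δ n N s.im := by
        unfold mj om
        rw [pow_add (s.im + 5 / 2) k 6]
        ring

lemma ff_differentiableOn (k : ℕ) (δ : ℝ) (n N : ℕ) :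
    DifferentiableOn ℂ (ff k δ n N) {s | 1 / 2 ≤ s.re ∧ s.re ≤ 3 ∧ 1 ≤ s.im} := by
  intro s hs
  have hs1 : s ≠ 1 := by
    rintro rfl
    have := hs.2.2
    simp at this
    norm_num at this
  apply DifferentiableAt.differentiableWithinAt
  unfold ff
  refine ((Wf_differentiable k δ s).mul (gg_continuousAt N s hs1)).mul ?_
  fun_prop

/-- integrability on the critical line -/
lemma ff_cl_integrable (k : ℕ) (δ : ℝ) (hδ : 0 < δ) (n N : ℕ) :
    IntegrableOn (fun t : ℝ => (om k δ t : ℂ) * (gg N (cl t) * ef (Real.log n) t)) (Set.Ioi 0) := by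
  apply om_mul_integrable k δ hδ _ ((gg_cl_continuous N).mul (ef_continuous _))
    (216 * 4 ^ 6 + (N : ℝ) ^ 4) 6
  intro t ht
  change ‖gg N (cl t) * ef (Real.log n) t‖ ≤ _
  rw [norm_mul, ef_norm, mul_one]
  have := gg_norm_le N (cl t) (by rw [cl_re]) (by rw [cl_re]; norm_num) (by rw [cl_im]; exact ht)
    (cl_sub_one t)
  rwa [cl_im] at this

lemma om_shift_integrable (k : ℕ) (δ : ℝ) (hδ : 0 < δ) :
    IntegrableOn (fun y : ℝ => om k δ (y + 5 / 2)) (Set.Ioi 1) ∧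
      ∫ y in Set.Ioi (1 : ℝ), om k δ (y + 5 / 2) ≤ 1 := by
  have hmp := measurePreserving_add_right (volume : Measure ℝ) (5 / 2 : ℝ)
  have hpre : (fun y : ℝ => y + 5 / 2) ⁻¹' (Set.Ioi (7 / 2 : ℝ)) = Set.Ioi 1 := by
    ext y
    simp only [Set.mem_preimage, Set.mem_Ioi]
    constructor <;> intro h <;> linarith
  have hemb : MeasurableEmbedding (fun y : ℝ => y + 5 / 2) :=
    (Homeomorph.addRight (5 / 2 : ℝ)).measurableEmbedding
  have hsub : Set.Ioi (7 / 2 : ℝ) ⊆ Set.Ioi 0 := Set.Ioi_subset_Ioi (by norm_num)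
  have h1 : IntegrableOn (om k δ) (Set.Ioi (7 / 2 : ℝ)) := (om_integrable k δ hδ).mono_set hsub
  constructor
  · have := (hmp.integrableOn_comp_preimage hemb (f := om k δ) (s := Set.Ioi (7 / 2 : ℝ))).2 h1
    rw [hpre] at this
    exact this
  · have h2 := hmp.setIntegral_preimage_emb hemb (om k δ) (Set.Ioi (7 / 2 : ℝ))
    rw [hpre] at h2
    rw [h2, ← om_integral_real k δ hδ]
    apply setIntegral_mono_set (om_integrable k δ hδ)
    · filter_upwards [ae_restrict_mem measurableSet_Ioi] with t ht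
      exact om_nonneg k δ t hδ.le (le_of_lt ht)
    · exact Filter.Eventually.of_forall hsub

/-- the right line -/
lemma right_line (k : ℕ) (δ : ℝ) (hδ : 0 < δ) (n N : ℕ) (hn : 1 ≤ n) (hN : 0 < N) :
    IntegrableOn (fun y : ℝ => ff k δ n N (((3 : ℝ) : ℂ) + y * I)) (Set.Ioi 1) ∧
      ‖∫ y in Set.Ioi (1 : ℝ), ff k δ n N (((3 : ℝ) : ℂ) + y * I)‖ ≤
        Real.exp (5 / 2 * δ) * (C2 / N) * (n : ℝ) ^ (5 / 2 : ℝ) := by
  have hb : ∀ᵐ y : ℝ ∂(volume.restrict (Set.Ioi 1)), ‖ff k δ n N (((3 : ℝ) : ℂ) + y * I)‖ ≤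
      Real.exp (5 / 2 * δ) * (C2 / N) * (n : ℝ) ^ (5 / 2 : ℝ) * om k δ (y + 5 / 2) := by
    filter_upwards [ae_restrict_mem measurableSet_Ioi] with y hy
    have hy1 : (1 : ℝ) < y := hy
    have e1 : (((3 : ℝ) : ℂ) + y * I).re = 3 := by simp
    have e2 : (((3 : ℝ) : ℂ) + y * I).im = y := by simp
    have hW := Wf_norm_le k δ hδ.le (((3 : ℝ) : ℂ) + y * I) (by rw [e1]; norm_num)
      (by rw [e1]) (by rw [e2]; linarith)
    rw [e2] at hW
    have hG := gg_right N hN (((3 : ℝ) : ℂ) + y * I) e1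
    have hE := exp_norm n hn (((3 : ℝ) : ℂ) + y * I) (by rw [e1])
    have hom : 0 ≤ om k δ (y + 5 / 2) := om_nonneg k δ _ hδ.le (by linarith)
    have hC := C2_nonneg
    unfold ff
    rw [norm_mul, norm_mul]
    calc ‖Wf k δ (((3 : ℝ) : ℂ) + y * I)‖ * ‖gg N (((3 : ℝ) : ℂ) + y * I)‖ *
          ‖cexp ((((3 : ℝ) : ℂ) + y * I - 1 / 2) * (Real.log n : ℂ))‖
        ≤ (Real.exp (5 / 2 * δ) * om k δ (y + 5 / 2)) * (C2 / N) * (n : ℝ) ^ (5 / 2 : ℝ) := by
          gcongr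
      _ = _ := by ring
  have hbi : Integrable (fun y : ℝ => Real.exp (5 / 2 * δ) * (C2 / N) * (n : ℝ) ^ (5 / 2 : ℝ) *
      om k δ (y + 5 / 2)) (volume.restrict (Set.Ioi 1)) :=
    (om_shift_integrable k δ hδ).1.const_mul _
  constructor
  · refine Integrable.mono' hbi ?_ hb
    apply ContinuousOn.aestronglyMeasurable _ measurableSet_Ioi
    intro y hy
    have hy1 : (1 : ℝ) < y := hy
    have hs1 : (((3 : ℝ) : ℂ) + y * I) ≠ 1 := by
      intro h
      have := congrArg Complex.re h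
      simp at this
    apply ContinuousAt.continuousWithinAt
    have hd : DifferentiableAt ℂ (ff k δ n N) (((3 : ℝ) : ℂ) + y * I) := by
      unfold ff
      refine ((Wf_differentiable k δ _).mul (gg_continuousAt N _ hs1)).mul ?_
      fun_prop
    exact ContinuousAt.comp (f := fun y : ℝ => ((3 : ℝ) : ℂ) + y * I) hd.continuousAt
      (by fun_prop)
  · refine (norm_integral_le_of_norm_le hbi hb).trans ?_
    rw [integral_const_mul]
    have hC := C2_nonneg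
    calc _ ≤ Real.exp (5 / 2 * δ) * (C2 / N) * (n : ℝ) ^ (5 / 2 : ℝ) * 1 := by
          gcongr
          exact (om_shift_integrable k δ hδ).2
      _ = _ := mul_one _

/-- the remainder part -/
lemma rem_bound (k : ℕ) (δ : ℝ) (hδ : 0 < δ) (n N : ℕ) (hn : 1 ≤ n) (hN : 0 < N) :
    ‖∫ t in Set.Ioi (0 : ℝ), (om k δ t : ℂ) * (gg N (cl t) * ef (Real.log n) t)‖ ≤
      δ ^ (k + 1) * ((216 * 4 ^ 6 + (N : ℝ) ^ 4) * 64) +
        (Real.exp (5 / 2 * δ) * (C2 / N) * (n : ℝ) ^ (5 / 2 : ℝ) + 5 / 2 * mj k δ n N 1) := by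
  have hint := ff_cl_integrable k δ hδ n N
  have hsplit : ∫ t in Set.Ioi (0 : ℝ), (om k δ t : ℂ) * (gg N (cl t) * ef (Real.log n) t) =
      (∫ t in Set.Ioc (0 : ℝ) 1, (om k δ t : ℂ) * (gg N (cl t) * ef (Real.log n) t)) +
        ∫ t in Set.Ioi (1 : ℝ), (om k δ t : ℂ) * (gg N (cl t) * ef (Real.log n) t) := by
    rw [← Set.Ioc_union_Ioi_eq_Ioi (zero_le_one (α := ℝ))]
    apply setIntegral_union
    · exact Set.Ioc_disjoint_Ioi le_rfl
    · exact measurableSet_Ioi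
    · exact hint.mono_set Set.Ioc_subset_Ioi_self
    · exact hint.mono_set (Set.Ioi_subset_Ioi zero_le_one)
  rw [hsplit]
  refine (norm_add_le _ _).trans (add_le_add ?_ ?_)
  · have h := norm_setIntegral_le_of_norm_le_const (μ := volume) (s := Set.Ioc (0 : ℝ) 1)
      (f := fun t : ℝ => (om k δ t : ℂ) * (gg N (cl t) * ef (Real.log n) t))
      (C := δ ^ (k + 1) * ((216 * 4 ^ 6 + (N : ℝ) ^ 4) * 64)) (by simp) (by
        intro t ht
        have ht0 : 0 ≤ t := ht.1.le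
        rw [norm_mul, norm_mul, ef_norm, mul_one, Complex.norm_real, Real.norm_eq_abs,
          abs_of_nonneg (om_nonneg k δ t hδ.le ht0)]
        have h1 := gg_norm_le N (cl t) (by rw [cl_re]) (by rw [cl_re]; norm_num)
          (by rw [cl_im]; exact ht0) (cl_sub_one t)
        rw [cl_im] at h1
        have h2 : (1 + t) ^ 6 ≤ 64 := by
          calc (1 + t) ^ 6 ≤ 2 ^ 6 := by
                apply pow_le_pow_left₀ (by linarith)
                linarith [ht.2]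
            _ = 64 := by norm_num
        have h3 : om k δ t ≤ δ ^ (k + 1) := by
          unfold om
          have e1 : t ^ k ≤ 1 := pow_le_one₀ ht0 ht.2
          have e2 : Real.exp (-(δ * t)) ≤ 1 := by
            rw [Real.exp_le_one_iff]
            have := mul_nonneg hδ.le ht0
            linarith
          have e3 : (1 : ℝ) ≤ (k.factorial : ℝ) := by exact_mod_cast Nat.factorial_pos k
          calc δ ^ (k + 1) * t ^ k * Real.exp (-(δ * t)) / (k.factorial : ℝ)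
              ≤ δ ^ (k + 1) * 1 * 1 / 1 := by gcongr
            _ = δ ^ (k + 1) := by ring
        calc om k δ t * ‖gg N (cl t)‖ ≤
            δ ^ (k + 1) * ((216 * 4 ^ 6 + (N : ℝ) ^ 4) * (1 + t) ^ 6) := by gcongr
          _ ≤ δ ^ (k + 1) * ((216 * 4 ^ 6 + (N : ℝ) ^ 4) * 64) := by gcongr)
    refine h.trans (le_of_eq ?_)
    simp
  · have hcl : ∀ y : ℝ, ((1 / 2 : ℝ) : ℂ) + y * I = cl y := fun y => by
      unfold cl
      push_cast
      ring
    have h := shift (ff k δ n N) (mj k δ n N) (ff_differentiableOn k δ n N) (mj_tendsto k δ hδ n N)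
      (fun s h1 h2 h3 => ff_norm_le k δ hδ n N hn s h1 h2 h3) (by
        simp_rw [hcl, ff_cl]
        exact hint.mono_set (Set.Ioi_subset_Ioi zero_le_one))
      (right_line k δ hδ n N hn hN).1
    simp_rw [hcl, ff_cl] at h
    refine h.trans ?_
    exact add_le_add (right_line k δ hδ n N hn hN).2 le_rfl

/-! ### The Dirichlet polynomial -/

lemma log_sep (m n : ℕ) (hm : 1 ≤ m) (hn : 1 ≤ n) (hmn : m ≠ n) :
    1 / (2 * (n : ℝ)) ≤ |Real.log n - Real.log m| := by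
  have hm0 : (0 : ℝ) < m := by exact_mod_cast hm
  have hn0 : (0 : ℝ) < n := by exact_mod_cast hn
  rcases lt_or_gt_of_ne hmn with h | h
  · have h1 : (m : ℝ) + 1 ≤ n := by exact_mod_cast h
    have h2 := Real.one_sub_inv_le_log_of_pos (div_pos hn0 hm0)
    rw [Real.log_div hn0.ne' hm0.ne'] at h2
    have h3 : 1 / (2 * (n : ℝ)) ≤ 1 - ((n : ℝ) / m)⁻¹ := by
      rw [inv_div]
      have e : 1 - (m : ℝ) / n = (n - m) / n := by field_simp
      rw [e, div_le_div_iff₀ (by positivity) hn0]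
      nlinarith
    exact (h3.trans h2).trans (le_abs_self _)
  · have h1 : (n : ℝ) + 1 ≤ m := by exact_mod_cast h
    have h2 := Real.one_sub_inv_le_log_of_pos (div_pos hm0 hn0)
    rw [Real.log_div hm0.ne' hn0.ne'] at h2
    have h3 : 1 / (2 * (n : ℝ)) ≤ 1 - ((m : ℝ) / n)⁻¹ := by
      rw [inv_div]
      have e : 1 - (n : ℝ) / m = (m - n) / m := by field_simp
      have hn1 : (1 : ℝ) ≤ n := by exact_mod_cast hn
      rw [e, div_le_div_iff₀ (by positivity) hm0]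
      nlinarith
    rw [abs_sub_comm]
    exact (h3.trans h2).trans (le_abs_self _)

lemma cpow_cl (m : ℕ) (hm : 1 ≤ m) (t : ℝ) :
    (m : ℂ) ^ (-(cl t)) = (((m : ℝ) ^ (-(1 / 2) : ℝ) : ℝ) : ℂ) * ef (-(Real.log m)) t := by
  have hm0 : (0 : ℝ) < m := by exact_mod_cast hm
  have hmc : (m : ℂ) ≠ 0 := by exact_mod_cast hm0.ne'
  rw [Complex.cpow_def_of_ne_zero hmc, Real.rpow_def_of_pos hm0, Complex.ofReal_exp]
  unfold ef cl
  rw [← Complex.exp_add, ← Complex.natCast_log]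
  congr 1
  push_cast
  ring

lemma ef_mul (a b t : ℝ) : ef a t * ef b t = ef (a + b) t := by
  unfold ef
  rw [← Complex.exp_add]
  congr 1
  push_cast
  ring

/-- the polynomial part of the integrand -/
lemma poly_term (k : ℕ) (δ : ℝ) (n N : ℕ) (t : ℝ) :
    (om k δ t : ℂ) * (Pp N (cl t) * ef (Real.log n) t) =
      ∑ m ∈ range N, ((d3 m * (m : ℝ) ^ (-(1 / 2) : ℝ) : ℝ) : ℂ) *
        ((om k δ t : ℂ) * ef (Real.log n - Real.log m) t) := by
  unfold Pp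
  rw [sum_mul, mul_sum]
  apply sum_congr rfl
  intro m _
  rcases Nat.eq_zero_or_pos m with rfl | hm0
  · rw [d3_zero]
    simp
  · rw [cpow_cl m hm0, sub_eq_add_neg (Real.log n), ← ef_mul]
    push_cast
    ring

lemma poly_integrable (k : ℕ) (δ : ℝ) (hδ : 0 < δ) (n N : ℕ) :
    IntegrableOn (fun t : ℝ => (om k δ t : ℂ) * (Pp N (cl t) * ef (Real.log n) t)) (Set.Ioi 0) := by
  simp_rw [poly_term]
  apply integrable_finsetSum
  intro m _
  exact (om_ef_integrable k δ hδ _).const_mul _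

lemma poly_bound (k : ℕ) (δ : ℝ) (hδ : 0 < δ) (n N : ℕ) (hn : 1 ≤ n) (hN : n < N) :
    ‖(∫ t in Set.Ioi (0 : ℝ), (om k δ t : ℂ) * (Pp N (cl t) * ef (Real.log n) t)) -
      ((d3 n / Real.sqrt n : ℝ) : ℂ)‖ ≤ (N : ℝ) ^ 4 * (2 * n * δ) ^ (k + 1) := by
  have hn0 : (0 : ℝ) < n := by exact_mod_cast hn
  simp_rw [poly_term]
  rw [integral_finsetSum _ (fun m _ => (om_ef_integrable k δ hδ _).const_mul _)]
  simp_rw [integral_const_mul]
  rw [← Finset.add_sum_erase _ _ (mem_range.2 hN)]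
  have e1 : ((d3 n * (n : ℝ) ^ (-(1 / 2) : ℝ) : ℝ) : ℂ) *
      ∫ t in Set.Ioi (0 : ℝ), (om k δ t : ℂ) * ef (Real.log n - Real.log n) t =
      ((d3 n / Real.sqrt n : ℝ) : ℂ) := by
    rw [sub_self]
    simp_rw [ef_zero, mul_one]
    rw [om_integral k δ hδ, mul_one]
    congr 1
    rw [Real.rpow_neg hn0.le, ← Real.sqrt_eq_rpow, div_eq_mul_inv]
  rw [e1, add_sub_cancel_left]
  calc ‖∑ m ∈ (range N).erase n, ((d3 m * (m : ℝ) ^ (-(1 / 2) : ℝ) : ℝ) : ℂ) *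
        ∫ t in Set.Ioi (0 : ℝ), (om k δ t : ℂ) * ef (Real.log n - Real.log m) t‖
      ≤ ∑ m ∈ (range N).erase n, ‖((d3 m * (m : ℝ) ^ (-(1 / 2) : ℝ) : ℝ) : ℂ) *
        ∫ t in Set.Ioi (0 : ℝ), (om k δ t : ℂ) * ef (Real.log n - Real.log m) t‖ :=
        norm_sum_le _ _
    _ ≤ ∑ _m ∈ (range N).erase n, (N : ℝ) ^ 3 * (2 * n * δ) ^ (k + 1) := by
        refine sum_le_sum fun m hm => ?_
        rw [mem_erase, mem_range] at hm
        rw [norm_mul, Complex.norm_real, Real.norm_eq_abs]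
        rcases Nat.eq_zero_or_pos m with rfl | hm0
        · rw [d3_zero, zero_mul, abs_zero, zero_mul]
          positivity
        · have hsep := log_sep m n hm0 hn hm.1
          have hpos : 0 < |Real.log n - Real.log m| := lt_of_lt_of_le (by positivity) hsep
          have hne : Real.log n - Real.log m ≠ 0 := abs_pos.mp hpos
          have h1 := om_ef_norm_le k δ hδ _ hne
          have h2 : (δ / |Real.log n - Real.log m|) ^ (k + 1) ≤ (2 * n * δ) ^ (k + 1) := by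
            apply pow_le_pow_left₀ (by positivity)
            rw [div_le_iff₀ hpos]
            calc δ = 2 * n * δ * (1 / (2 * (n : ℝ))) := by field_simp
              _ ≤ 2 * n * δ * |Real.log n - Real.log m| := by gcongr
          have h3 : |d3 m * (m : ℝ) ^ (-(1 / 2) : ℝ)| ≤ (N : ℝ) ^ 3 := by
            rw [abs_of_nonneg (mul_nonneg (d3_nonneg m) (by positivity))]
            have h4 : (m : ℝ) ^ (-(1 / 2) : ℝ) ≤ 1 := by
              apply Real.rpow_le_one_of_one_le_of_nonpos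
              · exact_mod_cast hm0
              · norm_num
            have h5 : (m : ℝ) ≤ N := by exact_mod_cast hm.2.le
            calc d3 m * (m : ℝ) ^ (-(1 / 2) : ℝ) ≤ (m : ℝ) ^ 3 * 1 := by
                  apply mul_le_mul (d3_le m) h4 (by positivity) (by positivity)
              _ = (m : ℝ) ^ 3 := mul_one _
              _ ≤ (N : ℝ) ^ 3 := by gcongr
          exact mul_le_mul h3 (h1.trans h2) (norm_nonneg _) (by positivity)
    _ ≤ ∑ _m ∈ range N, (N : ℝ) ^ 3 * (2 * n * δ) ^ (k + 1) := by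
        apply sum_le_sum_of_subset_of_nonneg (erase_subset _ _)
        intro _ _ _
        positivity
    _ = (N : ℝ) ^ 4 * (2 * n * δ) ^ (k + 1) := by
        rw [sum_const, card_range, nsmul_eq_mul]
        ring

/-- the bound before the choice of the parameters -/
lemma main_bound (k : ℕ) (δ : ℝ) (hδ : 0 < δ) (n N : ℕ) (hn : 1 ≤ n) (hN : n < N) :
    ‖(∫ t in Set.Ioi (0 : ℝ), (om k δ t : ℂ) * riemannZeta (cl t) ^ 3 * ef (Real.log n) t) -
      ((d3 n / Real.sqrt n : ℝ) : ℂ)‖ ≤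
      (N : ℝ) ^ 4 * (2 * n * δ) ^ (k + 1) +
      (δ ^ (k + 1) * ((216 * 4 ^ 6 + (N : ℝ) ^ 4) * 64) +
        (Real.exp (5 / 2 * δ) * (C2 / N) * (n : ℝ) ^ (5 / 2 : ℝ) + 5 / 2 * mj k δ n N 1)) := by
  have e : ∀ t : ℝ, (om k δ t : ℂ) * riemannZeta (cl t) ^ 3 * ef (Real.log n) t =
      (om k δ t : ℂ) * (Pp N (cl t) * ef (Real.log n) t) +
        (om k δ t : ℂ) * (gg N (cl t) * ef (Real.log n) t) := by
    intro t
    unfold gg
    ring
  simp_rw [e]
  rw [integral_add (poly_integrable k δ hδ n N) (ff_cl_integrable k δ hδ n N), add_sub_right_comm]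
  refine (norm_add_le _ _).trans (add_le_add ?_ ?_)
  · exact poly_bound k δ hδ n N hn hN
  · exact rem_bound k δ hδ n N hn (by omega)

/-- T5 -/
theorem B_part (ε : ℝ) (hε : 0 < ε) (hε1 : ε < 1) :
    ∀ᶠ T : ℝ in atTop, ∀ k : ℕ, Real.log T ^ 2 ≤ k → (k : ℝ) ≤ 4 * Real.log T ^ 2 →
      ∀ n : ℕ, 1 ≤ n → (n : ℝ) ≤ T ^ (1 - ε) →
        ‖(∫ t in Set.Ioi (0 : ℝ), (om k (k / T) t : ℂ) * riemannZeta (cl t) ^ 3 *
            ef (Real.log n) t) - ((d3 n / Real.sqrt n : ℝ) : ℂ)‖ ≤ T ^ (-1 : ℝ) := by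
  have hE1 : ∀ᶠ T : ℝ in atTop, 16 * Real.log T ^ 2 ≤ T ^ (ε / 2) := by
    have h := (isLittleO_log_rpow_rpow_atTop (s := ε / 2) 2 (by positivity)).bound
      (show (0 : ℝ) < 1 / 16 by norm_num)
    filter_upwards [h, eventually_ge_atTop 1] with T hT hT1
    rw [Real.norm_eq_abs, Real.norm_eq_abs, abs_of_nonneg (by
      have := Real.log_nonneg hT1
      positivity), abs_of_nonneg (by positivity)] at hT
    have e : Real.log T ^ (2 : ℝ) = Real.log T ^ 2 := by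
      rw [← Real.rpow_natCast]
      norm_num
    rw [e] at hT
    linarith
  have hE2 : ∀ᶠ T : ℝ in atTop, 48 / ε ≤ Real.log T ^ 2 :=
    ((tendsto_pow_atTop (two_ne_zero)).comp Real.tendsto_log_atTop).eventually_ge_atTop _
  have hE3 : ∀ᶠ T : ℝ in atTop, 4 * 10 ^ 9 + 3 * C2 ≤ T ^ (1 / 2 : ℝ) :=
    (tendsto_rpow_atTop (by norm_num)).eventually_ge_atTop _
  filter_upwards [hE1, hE2, hE3, eventually_ge_atTop 2] with T h1 h2 h3 h4 k hk1 hk2 n hn hnT
  have hT0 : 0 < T := by linarith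
  have hT1 : 1 ≤ T := by linarith
  have hkpos : (0 : ℝ) < k := lt_of_lt_of_le (lt_of_lt_of_le (by positivity) h2) hk1
  set δ : ℝ := (k : ℝ) / T with hδdef
  have hδ : 0 < δ := div_pos hkpos hT0
  have hn0 : (0 : ℝ) < n := by exact_mod_cast hn
  have hn1 : (1 : ℝ) ≤ n := by exact_mod_cast hn
  have hC2 := C2_nonneg
  -- the small parameter
  have hx : 4 * (n : ℝ) * δ ≤ T ^ (-(ε / 2)) := by
    have e1 : T ^ (1 - ε) = T * (T ^ (-(ε / 2)) * T ^ (-(ε / 2))) := by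
      rw [← Real.rpow_add hT0, Real.rpow_sub hT0, Real.rpow_one, div_eq_mul_inv,
        ← Real.rpow_neg hT0.le]
      congr 2
      ring
    have e2 : T ^ (ε / 2) * T ^ (-(ε / 2)) = 1 := by
      rw [← Real.rpow_add hT0]
      simp
    have hy : 0 < T ^ (-(ε / 2)) := by positivity
    calc 4 * (n : ℝ) * δ ≤ 4 * T ^ (1 - ε) * (4 * Real.log T ^ 2 / T) := by
          rw [hδdef]
          gcongr
      _ = (16 * Real.log T ^ 2) * (T ^ (-(ε / 2)) * T ^ (-(ε / 2))) := by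
          rw [e1]
          field_simp
          ring
      _ ≤ T ^ (ε / 2) * (T ^ (-(ε / 2)) * T ^ (-(ε / 2))) := by gcongr
      _ = T ^ (-(ε / 2)) := by rw [← mul_assoc, e2, one_mul]
  have hx1 : 4 * δ ≤ T ^ (-(ε / 2)) := by
    refine le_trans ?_ hx
    nlinarith
  have hsmall : T ^ (-(ε / 2)) ≤ 1 :=
    Real.rpow_le_one_of_one_le_of_nonpos hT1 (by linarith)
  have hδ4 : δ ≤ 1 / 4 := by linarith
  have hX : (T ^ (-(ε / 2))) ^ (k + 1) ≤ (T ^ 24)⁻¹ := by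
    rw [← Real.rpow_natCast, ← Real.rpow_mul hT0.le, ← Real.rpow_natCast T 24,
      ← Real.rpow_neg hT0.le]
    apply Real.rpow_le_rpow_of_exponent_le hT1
    have h5 : 48 / ε ≤ k := h2.trans hk1
    rw [div_le_iff₀ hε] at h5
    push_cast
    nlinarith
  -- the four terms
  set N : ℕ := ⌈T ^ 4⌉₊ with hN
  have hN1 : T ^ 4 ≤ N := Nat.le_ceil _
  have hT4 : (1 : ℝ) ≤ T ^ 4 := one_le_pow₀ hT1
  have hN2 : (N : ℝ) ≤ 2 * T ^ 4 := by
    have := Nat.ceil_lt_add_one (show (0 : ℝ) ≤ T ^ 4 by positivity)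
    linarith
  have hNpos : (0 : ℝ) < N := lt_of_lt_of_le (by positivity) hN1
  have hnT' : (n : ℝ) ≤ T := by
    refine hnT.trans ?_
    calc T ^ (1 - ε) ≤ T ^ (1 : ℝ) := Real.rpow_le_rpow_of_exponent_le hT1 (by linarith)
      _ = T := Real.rpow_one T
  have hnN : n < N := by
    have h5 : (n : ℝ) < N := by
      refine lt_of_le_of_lt hnT' (lt_of_lt_of_le ?_ hN1)
      calc T = T * 1 := (mul_one T).symm
        _ < T * T ^ 3 := by
            apply mul_lt_mul_of_pos_left _ hT0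
            exact one_lt_pow₀ (by linarith) (by norm_num)
        _ = T ^ 4 := by ring
    exact_mod_cast h5
  have hN4 : (N : ℝ) ^ 4 ≤ 16 * T ^ 16 := by
    calc (N : ℝ) ^ 4 ≤ (2 * T ^ 4) ^ 4 := by gcongr
      _ = 16 * T ^ 16 := by ring
  have hK : 216 * 4 ^ 6 + (N : ℝ) ^ 4 ≤ 884752 * T ^ 16 := by
    have : (1 : ℝ) ≤ T ^ 16 := one_le_pow₀ hT1
    nlinarith
  have hXpos : 0 < (T ^ 24)⁻¹ := by positivity
  have hn52 : (n : ℝ) ^ (5 / 2 : ℝ) ≤ T ^ (5 / 2 : ℝ) := by gcongr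
  have hT52 : T ^ (5 / 2 : ℝ) ≤ T ^ 3 := by
    rw [← Real.rpow_natCast]
    apply Real.rpow_le_rpow_of_exponent_le hT1
    norm_num
  have hexp : Real.exp (5 / 2 * δ) ≤ 3 := by
    have h5 : Real.exp (5 / 2 * δ) ≤ Real.exp 1 := Real.exp_le_exp.mpr (by linarith)
    have := Real.exp_one_lt_d9
    linarith
  have t1 : (N : ℝ) ^ 4 * (2 * n * δ) ^ (k + 1) ≤ 16 * T ^ 16 * (T ^ 24)⁻¹ := by
    have h5 : (2 * (n : ℝ) * δ) ^ (k + 1) ≤ (T ^ 24)⁻¹ := by
      refine le_trans ?_ hX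
      apply pow_le_pow_left₀ (by positivity)
      refine le_trans ?_ hx
      have : 0 ≤ (n : ℝ) * δ := by positivity
      nlinarith
    gcongr
  have hδX : δ ^ (k + 1) ≤ (T ^ 24)⁻¹ := by
    refine le_trans ?_ hX
    apply pow_le_pow_left₀ hδ.le
    linarith
  have t2 : δ ^ (k + 1) * ((216 * 4 ^ 6 + (N : ℝ) ^ 4) * 64) ≤
      (T ^ 24)⁻¹ * ((884752 * T ^ 16) * 64) := by
    gcongr
  have t3 : Real.exp (5 / 2 * δ) * (C2 / N) * (n : ℝ) ^ (5 / 2 : ℝ) ≤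
      3 * C2 * T ^ (-(3 / 2) : ℝ) := by
    have e1 : T ^ (-(3 / 2) : ℝ) = (T ^ 4)⁻¹ * T ^ (5 / 2 : ℝ) := by
      rw [← Real.rpow_natCast, ← Real.rpow_neg hT0.le, ← Real.rpow_add hT0]
      norm_num
    calc Real.exp (5 / 2 * δ) * (C2 / N) * (n : ℝ) ^ (5 / 2 : ℝ) ≤
        3 * (C2 / T ^ 4) * T ^ (5 / 2 : ℝ) := by gcongr
      _ = _ := by rw [e1]; ring
  have t4 : 5 / 2 * mj k δ n N 1 ≤ 35 * 10 ^ 8 * (T ^ 5)⁻¹ := by
    have h5 : δ ^ (k + 1) * (7 / 2 : ℝ) ^ (k + 1) ≤ (T ^ 24)⁻¹ := by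
      rw [← mul_pow]
      refine le_trans ?_ hX
      apply pow_le_pow_left₀ (by positivity)
      linarith
    have hfac : (1 : ℝ) ≤ (k.factorial : ℝ) := by exact_mod_cast Nat.factorial_pos k
    have hexp2 : Real.exp (-(δ * (1 + 5 / 2))) ≤ 1 := by
      rw [Real.exp_le_one_iff]
      linarith
    unfold mj
    calc 5 / 2 * ((Real.exp (5 / 2 * δ) * (δ ^ (k + 1) / (k.factorial : ℝ)) *
          (216 * 4 ^ 6 + (N : ℝ) ^ 4) * (n : ℝ) ^ (5 / 2 : ℝ)) *
          ((1 + 5 / 2) ^ (k + 6) * Real.exp (-(δ * (1 + 5 / 2)))))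
        ≤ 5 / 2 * ((3 * (δ ^ (k + 1) / 1) * (884752 * T ^ 16) * T ^ 3) *
          ((1 + 5 / 2) ^ (k + 6) * 1)) := by
          gcongr
          exact hn52.trans hT52
      _ = 5 / 2 * (3 * (884752 * T ^ 16) * T ^ 3) * (7 / 2) ^ 5 *
          (δ ^ (k + 1) * (7 / 2 : ℝ) ^ (k + 1)) := by
          rw [show (1 + 5 / 2 : ℝ) = 7 / 2 by norm_num, show k + 6 = (k + 1) + 5 by ring,
            pow_add (7 / 2 : ℝ) (k + 1) 5]
          ring
      _ ≤ 5 / 2 * (3 * (884752 * T ^ 16) * T ^ 3) * (7 / 2) ^ 5 * (T ^ 24)⁻¹ := by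
          gcongr
      _ = 5 / 2 * 3 * 884752 * (7 / 2) ^ 5 * (T ^ 5)⁻¹ := by
          field_simp
      _ ≤ 35 * 10 ^ 8 * (T ^ 5)⁻¹ := by
          apply mul_le_mul_of_nonneg_right _ (by positivity)
          norm_num
  have hmain := main_bound k δ hδ n N hn hnN
  refine hmain.trans ?_
  have e32 : T ^ (-1 : ℝ) = T ^ (1 / 2 : ℝ) * T ^ (-(3 / 2) : ℝ) := by
    rw [← Real.rpow_add hT0]
    norm_num
  have hs0 : 0 < T ^ (-(3 / 2) : ℝ) := by positivity
  have hs5 : (T ^ 5)⁻¹ ≤ T ^ (-(3 / 2) : ℝ) := by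
    rw [← Real.rpow_natCast, ← Real.rpow_neg hT0.le]
    apply Real.rpow_le_rpow_of_exponent_le hT1
    norm_num
  have hs8 : T ^ 16 * (T ^ 24)⁻¹ ≤ T ^ (-(3 / 2) : ℝ) := by
    have e1 : T ^ 16 * (T ^ 24)⁻¹ = (T ^ 8)⁻¹ := by
      field_simp
    rw [e1, ← Real.rpow_natCast, ← Real.rpow_neg hT0.le]
    apply Real.rpow_le_rpow_of_exponent_le hT1
    norm_num
  calc (N : ℝ) ^ 4 * (2 * n * δ) ^ (k + 1) +
      (δ ^ (k + 1) * ((216 * 4 ^ 6 + (N : ℝ) ^ 4) * 64) +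
        (Real.exp (5 / 2 * δ) * (C2 / N) * (n : ℝ) ^ (5 / 2 : ℝ) + 5 / 2 * mj k δ n N 1))
      ≤ 16 * T ^ 16 * (T ^ 24)⁻¹ + ((T ^ 24)⁻¹ * ((884752 * T ^ 16) * 64) +
        (3 * C2 * T ^ (-(3 / 2) : ℝ) + 35 * 10 ^ 8 * (T ^ 5)⁻¹)) :=
        add_le_add t1 (add_le_add t2 (add_le_add t3 t4))
    _ = (16 + 884752 * 64) * (T ^ 16 * (T ^ 24)⁻¹) + 3 * C2 * T ^ (-(3 / 2) : ℝ) +
        35 * 10 ^ 8 * (T ^ 5)⁻¹ := by ring
    _ ≤ (16 + 884752 * 64) * T ^ (-(3 / 2) : ℝ) + 3 * C2 * T ^ (-(3 / 2) : ℝ) +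
        35 * 10 ^ 8 * T ^ (-(3 / 2) : ℝ) :=
        add_le_add (add_le_add (mul_le_mul_of_nonneg_left hs8 (by norm_num)) le_rfl)
          (mul_le_mul_of_nonneg_left hs5 (by norm_num))
    _ = (16 + 884752 * 64 + 35 * 10 ^ 8 + 3 * C2) * T ^ (-(3 / 2) : ℝ) := by ring
    _ ≤ (4 * 10 ^ 9 + 3 * C2) * T ^ (-(3 / 2) : ℝ) := by
        apply mul_le_mul_of_nonneg_right _ hs0.le
        linarith
    _ ≤ T ^ (1 / 2 : ℝ) * T ^ (-(3 / 2) : ℝ) := mul_le_mul_of_nonneg_right h3 hs0.le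
    _ = T ^ (-1 : ℝ) := e32.symm

end

end Pool.Agent.H831R2.SMT5
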