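import Pool.Agent.H476R2.Pal.Defs

/-!
# Palindromes, task T4: twentieth moment of an off-centre block (two-dimensional large sieve)
-/

set_option autoImplicit false

namespace Pool.Agent.H831R2.PalT4

open Finset Pool.Agent.Helper112 Pool.Agent.H476R2.Pal

/-- coefficients of `(1 + x + ... + x^9)^2` -/
def w2 (s : ℕ) : ℕ := [1, 2, 3, 4, 5, 6, 7, 8, 9, 10, 9, 8, 7, 6, 5, 4, 3, 2, 1].getD s 0

/-- coefficients of `(1 + x + ... + x^9)^5` -/
def w5 (s : ℕ) : ℕ := [1, 5, 15, 35, 70, 126, 210, 330, 495, 715, 996, 1340, 1745, 2205, 2710, 3246,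
  3795, 4335, 4840, 5280, 5631, 5875, 6000, 6000, 5875, 5631, 5280, 4840, 4335, 3795, 3246, 2710,
  2205, 1745, 1340, 996, 715, 495, 330, 210, 126, 70, 35, 15, 5, 1].getD s 0

/-- coefficients of `(1 + x + ... + x^9)^10` -/
def w (s : ℕ) : ℕ := [1, 10, 55, 220, 715, 2002, 5005, 11440, 24310, 48620, 92368, 167860, 293380,
  495220, 810040, 1287484, 1992925, 3010150, 4443725, 6420700, 9091270, 12628000, 17223250,
  23084500, 30427375, 39466306, 50402935, 63412580, 78629320, 96130540, 115921972, 137924380,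
  161963065, 187761310, 214938745, 243015388, 271421810, 299515480, 326602870, 351966340,
  374894389, 394713550, 410820025, 422709100, 430000450, 432457640, 430000450, 422709100,
  410820025, 394713550, 374894389, 351966340, 326602870, 299515480, 271421810, 243015388,
  214938745, 187761310, 161963065, 137924380, 115921972, 96130540, 78629320, 63412580, 50402935,
  39466306, 30427375, 23084500, 17223250, 12628000, 9091270, 6420700, 4443725, 3010150, 1992925,
  1287484, 810040, 495220, 293380, 167860, 92368, 48620, 24310, 11440, 5005, 2002, 715, 220, 55,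
  10, 1].getD s 0

lemma pow_two' (z : ℂ) : (∑ m ∈ range 10, z ^ m) ^ 2 = ∑ s ∈ range 19, (w2 s : ℂ) * z ^ s := by
  simp only [Finset.sum_range_succ, Finset.sum_range_zero, w2, List.getD_eq_getElem?_getD,
    List.getElem?_cons_zero, List.getElem?_cons_succ, Option.getD_some]
  push_cast
  ring

lemma pow_five' (z : ℂ) : (∑ m ∈ range 10, z ^ m) ^ 5 = ∑ s ∈ range 46, (w5 s : ℂ) * z ^ s := by
  have h : (∑ m ∈ range 10, z ^ m) ^ 5 =
      (∑ m ∈ range 10, z ^ m) ^ 2 * (∑ m ∈ range 10, z ^ m) ^ 2 * (∑ m ∈ range 10, z ^ m) := by ring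
  rw [h, pow_two']
  simp only [Finset.sum_range_succ, Finset.sum_range_zero, w2, w5, List.getD_eq_getElem?_getD,
    List.getElem?_cons_zero, List.getElem?_cons_succ, Option.getD_some]
  push_cast
  ring

lemma pow_ten' (z : ℂ) : (∑ m ∈ range 10, z ^ m) ^ 10 = ∑ s ∈ range 91, (w s : ℂ) * z ^ s := by
  have h : (∑ m ∈ range 10, z ^ m) ^ 10 =
      (∑ m ∈ range 10, z ^ m) ^ 5 * (∑ m ∈ range 10, z ^ m) ^ 5 := by ring
  rw [h, pow_five']
  simp only [Finset.sum_range_succ, Finset.sum_range_zero, w, w5, List.getD_eq_getElem?_getD,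
    List.getElem?_cons_zero, List.getElem?_cons_succ, Option.getD_some]
  push_cast
  ring

lemma E_le : ∑ s ∈ range 91, w s ^ 2 ≤ 309 * 10 ^ 16 := by decide +kernel

/-! ### injectivity -/

lemma digits_inj : ∀ (J : ℕ) (z : ℕ → ℤ), (∀ j < J, |z j| ≤ 90) →
    ∑ j ∈ range J, z j * 10 ^ j = 0 → ∑ j ∈ range J, z j * 10 ^ (J - 1 - j) = 0 →
    ∀ j < J, z j = 0 := by
  intro J
  induction J with
  | zero =>
    intro z _ _ _ j hj
    omega
  | succ J ih =>
    intro z hz h1 h2
    have hbound : ∀ K ≤ J, |∑ j ∈ range K, z j * 10 ^ j| ≤ 10 * 10 ^ K - 10 := by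
      intro K
      induction K with
      | zero => intro _; simp
      | succ K ihK =>
        intro hK
        rw [sum_range_succ]
        have h3 := ihK (by omega)
        have h4 := hz K (by omega)
        have h5 : |z K * 10 ^ K| ≤ 90 * 10 ^ K := by
          rw [abs_mul, abs_of_pos (by positivity : (0 : ℤ) < 10 ^ K)]
          exact mul_le_mul_of_nonneg_right h4 (by positivity)
        calc |∑ j ∈ range K, z j * 10 ^ j + z K * 10 ^ K|
            ≤ |∑ j ∈ range K, z j * 10 ^ j| + |z K * 10 ^ K| := abs_add_le _ _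
          _ ≤ (10 * 10 ^ K - 10) + 90 * 10 ^ K := add_le_add h3 h5
          _ = 10 * 10 ^ (K + 1) - 10 := by ring
    have h2' : 10 * ∑ j ∈ range J, z j * 10 ^ (J - 1 - j) + z J = 0 := by
      rw [← h2, sum_range_succ, mul_sum]
      congr 1
      · apply sum_congr rfl
        intro j hj
        rw [mem_range] at hj
        rw [show J + 1 - 1 - j = (J - 1 - j) + 1 by omega, pow_succ]
        ring
      · simp
    have h1' : ∑ j ∈ range J, z j * 10 ^ j + z J * 10 ^ J = 0 := by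
      rw [← h1, sum_range_succ]
    have h3 := hbound J le_rfl
    have h4 : |z J| * 10 ^ J ≤ 10 * 10 ^ J - 10 := by
      have h5 : z J * 10 ^ J = - ∑ j ∈ range J, z j * 10 ^ j := by linarith
      calc |z J| * 10 ^ J = |z J * 10 ^ J| := by
            rw [abs_mul, abs_of_pos (by positivity : (0 : ℤ) < 10 ^ J)]
        _ = |∑ j ∈ range J, z j * 10 ^ j| := by rw [h5, abs_neg]
        _ ≤ _ := h3
    have hp : (0 : ℤ) < 10 ^ J := by positivity
    have h5 : |z J| < 10 := by
      by_contra hcon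
      push Not at hcon
      nlinarith
    have h6 : z J = 0 := by
      rw [abs_lt] at h5
      omega
    rw [h6] at h1' h2'
    have h7 := ih z (fun j hj => hz j (by omega)) (by linarith) (by linarith)
    intro j hj
    rcases Nat.lt_succ_iff_lt_or_eq.mp hj with h | h
    · exact h7 j h
    · rw [h]; exact h6

/-! ### two-dimensional large sieve -/

lemma two_dim {ι : Type*} [DecidableEq ι] (P : Finset ι) (X Y : ι → ℕ) (W : ι → ℝ) (B F H : ℕ)
    (hX : ∀ p ∈ P, X p < B) (hY : ∀ p ∈ P, Y p < B)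
    (hinj : ∀ p ∈ P, ∀ p' ∈ P, X p = X p' → Y p = Y p' → p = p') :
    ∑ f ∈ Icc 1 F, ∑ a ∈ (range f).filter (fun a => a.Coprime f),
      ‖∑ p ∈ P, (W p : ℂ) * ee (((Y p + H * X p : ℕ) : ℝ) * ((a : ℝ) / f))‖ ^ 2 ≤
      B * (6 * (B + (F : ℝ) ^ 2)) * ∑ p ∈ P, W p ^ 2 := by
  -- coefficients
  set c : ℕ → ℕ → ℂ := fun x n => ∑ p ∈ P.filter (fun p => X p = x ∧ Y p + 1 = n), (W p : ℂ) with hc
  have h1 : ∀ f a : ℕ,
      ‖∑ p ∈ P, (W p : ℂ) * ee (((Y p + H * X p : ℕ) : ℝ) * ((a : ℝ) / f))‖ ^ 2 ≤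
        B * ∑ x ∈ range B, ‖∑ n ∈ Icc 1 B, c x n * ee (n * a / f)‖ ^ 2 := by
    intro f a
    have e1 : ∑ p ∈ P, (W p : ℂ) * ee (((Y p + H * X p : ℕ) : ℝ) * ((a : ℝ) / f)) =
        ∑ x ∈ range B, ee (((H * x : ℕ) : ℝ) * ((a : ℝ) / f)) * ee (-((a : ℝ) / f)) *
          ∑ n ∈ Icc 1 B, c x n * ee (n * a / f) := by
      rw [← sum_fiberwise_of_maps_to (s := P) (t := range B) (g := X)
        (fun p hp => mem_range.mpr (hX p hp))]
      apply sum_congr rfl
      intro x _
      rw [← sum_fiberwise_of_maps_to (s := P.filter (fun p => X p = x)) (t := Icc 1 B)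
        (g := fun p => Y p + 1) (fun p hp => by
          rw [mem_filter] at hp
          rw [mem_Icc]
          have := hY p hp.1
          omega), mul_sum]
      apply sum_congr rfl
      intro n _
      rw [hc, filter_filter]
      simp only
      rw [sum_mul, mul_sum]
      apply sum_congr rfl
      intro p hp
      rw [mem_filter] at hp
      obtain ⟨_, hx, hn⟩ := hp
      have e2 : ee (((Y p + H * X p : ℕ) : ℝ) * ((a : ℝ) / f)) =
          ee (((H * x : ℕ) : ℝ) * ((a : ℝ) / f)) * ee (-((a : ℝ) / f)) * ee (n * a / f) := by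
        rw [← ls_ee_add, ← ls_ee_add]
        congr 1
        rw [← hx, ← hn]
        push_cast
        ring
      rw [e2]
      ring
    rw [e1]
    calc ‖∑ x ∈ range B, ee (((H * x : ℕ) : ℝ) * ((a : ℝ) / f)) * ee (-((a : ℝ) / f)) *
          ∑ n ∈ Icc 1 B, c x n * ee (n * a / f)‖ ^ 2
        ≤ (∑ x ∈ range B, ‖∑ n ∈ Icc 1 B, c x n * ee (n * a / f)‖) ^ 2 := by
          apply pow_le_pow_left₀ (norm_nonneg _)
          refine (norm_sum_le _ _).trans (sum_le_sum fun x _ => ?_)
          rw [norm_mul, norm_mul, ls_norm_ee, ls_norm_ee, one_mul, one_mul]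
      _ ≤ _ := by
          have := sq_sum_le_card_mul_sum_sq (s := range B)
            (f := fun x => ‖∑ n ∈ Icc 1 B, c x n * ee (n * a / f)‖)
          rwa [card_range] at this
  calc ∑ f ∈ Icc 1 F, ∑ a ∈ (range f).filter (fun a => a.Coprime f),
      ‖∑ p ∈ P, (W p : ℂ) * ee (((Y p + H * X p : ℕ) : ℝ) * ((a : ℝ) / f))‖ ^ 2
      ≤ ∑ f ∈ Icc 1 F, ∑ a ∈ (range f).filter (fun a => a.Coprime f),
        B * ∑ x ∈ range B, ‖∑ n ∈ Icc 1 B, c x n * ee (n * a / f)‖ ^ 2 :=
        sum_le_sum fun f _ => sum_le_sum fun a _ => h1 f a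
    _ = B * ∑ x ∈ range B, ∑ f ∈ Icc 1 F, ∑ a ∈ (range f).filter (fun a => a.Coprime f),
        ‖∑ n ∈ Icc 1 B, c x n * ee (n * a / f)‖ ^ 2 := by
        simp_rw [← mul_sum]
        congr 1
        rw [sum_comm]
        apply sum_congr rfl
        intro f _
        rw [sum_comm]
    _ ≤ B * ∑ x ∈ range B, (6 * (B + (F : ℝ) ^ 2) * ∑ n ∈ Icc 1 B, ‖c x n‖ ^ 2) := by
        gcongr with x _
        exact additive_large_sieve B F (c x)
    _ = B * (6 * (B + (F : ℝ) ^ 2)) * ∑ x ∈ range B, ∑ n ∈ Icc 1 B, ‖c x n‖ ^ 2 := by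
        rw [← mul_sum]; ring
    _ = B * (6 * (B + (F : ℝ) ^ 2)) * ∑ p ∈ P, W p ^ 2 := by
        congr 1
        rw [← sum_fiberwise_of_maps_to (s := P) (t := range B) (g := X)
          (fun p hp => mem_range.mpr (hX p hp))]
        apply sum_congr rfl
        intro x _
        rw [← sum_fiberwise_of_maps_to (s := P.filter (fun p => X p = x)) (t := Icc 1 B)
          (g := fun p => Y p + 1) (fun p hp => by
            rw [mem_filter] at hp
            rw [mem_Icc]
            have := hY p hp.1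
            omega)]
        apply sum_congr rfl
        intro n _
        rw [hc, filter_filter]
        simp only
        rcases (P.filter (fun p => X p = x ∧ Y p + 1 = n)).eq_empty_or_nonempty with h0 | ⟨p, hp⟩
        · rw [h0]; simp
        · have hs : P.filter (fun p => X p = x ∧ Y p + 1 = n) = {p} := by
            rw [eq_singleton_iff_unique_mem]
            refine ⟨hp, fun p' hp' => ?_⟩
            rw [mem_filter] at hp hp'
            exact hinj p' hp'.1 p hp.1 (by omega) (by omega)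
          rw [hs, sum_singleton, sum_singleton, Complex.norm_real, Real.norm_eq_abs, sq_abs]

/-! ### the product formula -/

/-- the exponent set -/
def PP (J : ℕ) : Finset (Fin J → ℕ) := Fintype.piFinset fun _ => range 91

/-- first digit sum -/
def XX (J : ℕ) (p : Fin J → ℕ) : ℕ := ∑ j : Fin J, p j * 10 ^ (j : ℕ)

/-- reversed digit sum -/
def YY (J : ℕ) (p : Fin J → ℕ) : ℕ := ∑ j : Fin J, p j * 10 ^ (J - 1 - (j : ℕ))

/-- weights -/
def WW (J : ℕ) (p : Fin J → ℕ) : ℝ := ∏ j : Fin J, (w (p j) : ℝ)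

lemma ee_sum {ι : Type*} (s : Finset ι) (f : ι → ℝ) : ee (∑ j ∈ s, f j) = ∏ j ∈ s, ee (f j) := by
  classical
  induction s using Finset.induction_on with
  | empty => simp [ls_ee_zero]
  | insert a s ha ih => rw [sum_insert ha, prod_insert ha, ls_ee_add, ih]

lemma ph_pow (β : ℝ) : ph β ^ 20 = ‖∑ s ∈ range 91, (w s : ℂ) * ee β ^ s‖ ^ 2 / 10 ^ 20 := by
  rw [← pow_ten', norm_pow, ph, div_pow]
  have : ∑ m ∈ range 10, ee (m * β) = ∑ m ∈ range 10, ee β ^ m :=
    sum_congr rfl fun m _ => ls_ee_nat_mul m β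
  rw [this]
  ring

lemma Ps_pow (A J : ℕ) (hA : 1 ≤ A) (α : ℝ) :
    Ps (A + J - 1) A J α ^ 20 =
      ‖∑ p ∈ PP J, (WW J p : ℂ) * ee (((YY J p + 10 ^ (2 * A + J - 1) * XX J p : ℕ) : ℝ) * α)‖ ^ 2 /
        10 ^ (20 * J) := by
  set β : Fin J → ℝ := fun j => (fr (A + J - 1) (A + (j : ℕ)) : ℝ) * α with hβ
  have h1 : Ps (A + J - 1) A J α ^ 20 = ∏ j : Fin J, ph (β j) ^ 20 := by
    rw [prod_pow, Ps, prod_range]
  have h2 : ∏ j : Fin J, (∑ s ∈ range 91, (w s : ℂ) * ee (β j) ^ s) =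
      ∑ p ∈ PP J, (WW J p : ℂ) *
        ee (((YY J p + 10 ^ (2 * A + J - 1) * XX J p : ℕ) : ℝ) * α) := by
    rw [prod_univ_sum]
    apply sum_congr rfl
    intro p _
    rw [prod_mul_distrib, WW]
    push_cast
    congr 1
    have h3 : ∏ j : Fin J, ee (β j) ^ p j = ee (∑ j : Fin J, (p j : ℝ) * β j) := by
      rw [ee_sum]
      exact prod_congr rfl fun j _ => (ls_ee_nat_mul _ _).symm
    rw [h3]
    congr 1
    rw [YY, XX]
    push_cast
    rw [mul_sum, ← sum_add_distrib, sum_mul]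
    apply sum_congr rfl
    intro j _
    have hj := j.isLt
    have h4 : fr (A + J - 1) (A + (j : ℕ)) = 10 ^ (J - 1 - (j : ℕ)) +
        10 ^ (2 * A + J - 1) * 10 ^ (j : ℕ) := by
      unfold fr
      rw [if_neg (by omega), ← pow_add, add_comm]
      congr 2 <;> omega
    rw [hβ]
    simp only
    rw [h4]
    push_cast
    ring
  rw [h1, ← h2, norm_prod, ← prod_pow]
  have h5 : ∀ j : Fin J, ph (β j) ^ 20 =
      ‖∑ s ∈ range 91, (w s : ℂ) * ee (β j) ^ s‖ ^ 2 / 10 ^ 20 := fun j => ph_pow _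
  simp_rw [h5]
  rw [prod_div_distrib, prod_const, card_univ, Fintype.card_fin, ← pow_mul]

lemma sum_sq_WW (J : ℕ) : ∑ p ∈ PP J, WW J p ^ 2 ≤ (309 * 10 ^ 16 : ℝ) ^ J := by
  have h1 : ∑ p ∈ PP J, WW J p ^ 2 = ∏ _j : Fin J, ∑ s ∈ range 91, (w s : ℝ) ^ 2 := by
    rw [prod_univ_sum]
    apply sum_congr rfl
    intro p _
    rw [WW, ← prod_pow]
  rw [h1, prod_const, card_univ, Fintype.card_fin]
  apply pow_le_pow_left₀ (by positivity)
  exact_mod_cast E_le

lemma sum90 (J : ℕ) : ∑ j ∈ range J, 90 * 10 ^ j + 10 = 10 * 10 ^ J := by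
  induction J with
  | zero => simp
  | succ J ih => rw [sum_range_succ, pow_succ]; omega

lemma mem_PP {J : ℕ} {p : Fin J → ℕ} (hp : p ∈ PP J) (j : Fin J) : p j ≤ 90 := by
  have := Fintype.mem_piFinset.mp hp j
  rw [mem_range] at this
  omega

lemma XX_lt (J : ℕ) (p : Fin J → ℕ) (hp : p ∈ PP J) : XX J p < 10 * 10 ^ J := by
  have h1 : XX J p ≤ ∑ j ∈ range J, 90 * 10 ^ j := by
    rw [XX, ← Fin.sum_univ_eq_sum_range (fun j => 90 * 10 ^ j)]
    exact sum_le_sum fun j _ => Nat.mul_le_mul_right _ (mem_PP hp j)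
  have := sum90 J
  omega

lemma YY_lt (J : ℕ) (p : Fin J → ℕ) (hp : p ∈ PP J) : YY J p < 10 * 10 ^ J := by
  have h1 : YY J p ≤ ∑ j ∈ range J, 90 * 10 ^ (J - 1 - j) := by
    rw [YY, ← Fin.sum_univ_eq_sum_range (fun j => 90 * 10 ^ (J - 1 - j))]
    exact sum_le_sum fun j _ => Nat.mul_le_mul_right _ (mem_PP hp j)
  rw [sum_range_reflect (fun j => 90 * 10 ^ j) J] at h1
  have := sum90 J
  omega

lemma XY_inj (J : ℕ) (p : Fin J → ℕ) (hp : p ∈ PP J) (p' : Fin J → ℕ) (hp' : p' ∈ PP J)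
    (h1 : XX J p = XX J p') (h2 : YY J p = YY J p') : p = p' := by
  set z : ℕ → ℤ := fun j => if h : j < J then (p ⟨j, h⟩ : ℤ) - p' ⟨j, h⟩ else 0 with hz
  have hzj : ∀ j : Fin J, z j = (p j : ℤ) - p' j := fun j => by
    rw [hz]
    simp only
    rw [dif_pos j.isLt]
  have e1 : ∑ j ∈ range J, z j * 10 ^ j = (XX J p : ℤ) - XX J p' := by
    rw [← Fin.sum_univ_eq_sum_range (fun j => z j * 10 ^ j), XX, XX]
    push_cast
    rw [← sum_sub_distrib]
    exact sum_congr rfl fun j _ => by rw [hzj]; ring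
  have e2 : ∑ j ∈ range J, z j * 10 ^ (J - 1 - j) = (YY J p : ℤ) - YY J p' := by
    rw [← Fin.sum_univ_eq_sum_range (fun j => z j * 10 ^ (J - 1 - j)), YY, YY]
    push_cast
    rw [← sum_sub_distrib]
    exact sum_congr rfl fun j _ => by rw [hzj]; ring
  have h3 := digits_inj J z (fun j hj => by
    have := hzj ⟨j, hj⟩
    simp only at this
    rw [this, abs_le]
    have ha := mem_PP hp ⟨j, hj⟩
    have hb := mem_PP hp' ⟨j, hj⟩
    omega) (by rw [e1, h1]; ring) (by rw [e2, h2]; ring)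
  funext j
  have := h3 j j.isLt
  rw [hzj] at this
  omega

/-- T4: twentieth moment of an off-centre block -/
theorem T20 (L A J Q : ℕ) (hA : 1 ≤ A) (hAJ : A + J ≤ L) (hQ : 1 ≤ Q) (h1 : Q ^ 2 ≤ 10 ^ J)
    (h2 : 10 ^ J ≤ 10 * Q ^ 2) :
    pts Q (fun α => Ps L A J α ^ 20) ≤ 3000 * Q * (98 / 100) ^ J := by
  set M := A + J - 1 with hM
  -- dilation
  have hdil : pts Q (fun α => Ps L A J α ^ 20) = pts Q (fun α => Ps M A J α ^ 20) := by
    unfold pts
    apply sum_congr rfl
    intro q hq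
    rw [mem_filter] at hq
    rw [← dilate hq.2 (L - M) (fun α => Ps M A J α ^ 20)
      (fun x n => by rw [Ps_add_int])]
    apply sum_congr rfl
    intro a _
    show Ps L A J ((a : ℝ) / q) ^ 20 = _
    rw [Ps_scale (L := L) (M := M) (A := A) (J := J) (by omega) (by omega)]
  rw [hdil]
  have hmain : pts Q (fun α => Ps M A J α ^ 20) ≤
      (((10 * 10 ^ J : ℕ) : ℝ) * (6 * (((10 * 10 ^ J : ℕ) : ℝ) + ((2 * Q : ℕ) : ℝ) ^ 2)) *
        (309 * 10 ^ 16 : ℝ) ^ J) / 10 ^ (20 * J) := by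
    unfold pts
    simp only
    simp_rw [hM, Ps_pow A J hA, ← sum_div]
    apply div_le_div_of_nonneg_right _ (by positivity)
    have htd := two_dim (PP J) (XX J) (YY J) (WW J) (10 * 10 ^ J) (2 * Q) (10 ^ (2 * A + J - 1))
      (XX_lt J) (YY_lt J) (XY_inj J)
    refine le_trans ?_ (htd.trans ?_)
    · apply sum_le_sum_of_subset_of_nonneg
      · intro q hq
        rw [mem_filter, mem_Ico] at hq
        rw [mem_Icc]
        omega
      · intro f _ _
        exact sum_nonneg fun a _ => by positivity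
    · exact mul_le_mul_of_nonneg_left (sum_sq_WW J) (by positivity)
  refine hmain.trans ?_
  have hQ2 : ((Q : ℝ)) ^ 2 ≤ 10 ^ J := by exact_mod_cast h1
  have hQ3 : (10 : ℝ) ^ J ≤ 10 * (Q : ℝ) ^ 2 := by exact_mod_cast h2
  have hT : (0 : ℝ) < 10 ^ J := by positivity
  calc (((10 * 10 ^ J : ℕ) : ℝ) * (6 * (((10 * 10 ^ J : ℕ) : ℝ) + ((2 * Q : ℕ) : ℝ) ^ 2)) *
        (309 * 10 ^ 16 : ℝ) ^ J) / 10 ^ (20 * J)
      ≤ (10 * 10 ^ J * (6 * (14 * 10 ^ J)) * (309 * 10 ^ 16 : ℝ) ^ J) / 10 ^ (20 * J) := by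
        apply div_le_div_of_nonneg_right _ (by positivity)
        apply mul_le_mul_of_nonneg_right _ (by positivity)
        push_cast
        apply mul_le_mul_of_nonneg_left _ (by positivity)
        nlinarith
    _ = 840 * (309 / 100) ^ J := by
        have e : (309 * 10 ^ 16 : ℝ) ^ J = (309 / 100) ^ J * 10 ^ (18 * J) := by
          rw [pow_mul, ← mul_pow]
          norm_num
        rw [e, show 20 * J = 18 * J + J + J by ring, pow_add, pow_add]
        field_simp
        ring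
    _ ≤ 3000 * Q * (98 / 100) ^ J := by
        rw [← pow_le_pow_iff_left₀ (by positivity) (by positivity) (two_ne_zero)]
        have e1 : (840 * (309 / 100 : ℝ) ^ J) ^ 2 = 705600 * (95481 / 10000) ^ J := by
          rw [mul_pow, ← pow_mul, mul_comm J 2, pow_mul]
          norm_num
        have e2 : (3000 * (Q : ℝ) * (98 / 100) ^ J) ^ 2 =
            900000 * (10 * (Q : ℝ) ^ 2) * (9604 / 10000) ^ J := by
          rw [mul_pow, ← pow_mul, mul_comm J 2, pow_mul]
          norm_num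
          ring
        rw [e1, e2]
        calc (705600 : ℝ) * (95481 / 10000) ^ J ≤ 900000 * (96040 / 10000) ^ J := by
              apply mul_le_mul (by norm_num) _ (by positivity) (by norm_num)
              apply pow_le_pow_left₀ (by norm_num) (by norm_num)
          _ = 900000 * 10 ^ J * (9604 / 10000) ^ J := by
              rw [mul_assoc, ← mul_pow]
              norm_num
          _ ≤ 900000 * (10 * (Q : ℝ) ^ 2) * (9604 / 10000) ^ J := by
              apply mul_le_mul_of_nonneg_right _ (by positivity)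
              linarith

end Pool.Agent.H831R2.PalT4
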