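import Mathlib
import Pool.Agent.H292R2.Leh.Defs

open Polynomial IntermediateField
open Pool.Agent.H292R2.Leh

namespace Pool.Agent.H831R2.LehG

theorem exists_expand (f : ℤ[X]) (hm : f.Monic) (hirr : Irreducible f) {d : ℕ} (x : Fin d → ℂ)
    (hx : Enum f x) (p : ℕ) (hp : p.Prime) (ht : p = 2 ∨ NoTors f p)
    (h : ¬ Function.Injective (fun i => x i ^ p)) : ∃ g : ℤ[X], f = expand ℤ p g := by
  classical
  -- the rational polynomial
  set fQ : ℚ[X] := f.map (Int.castRingHom ℚ) with hfQ
  have hmQ : fQ.Monic := hm.map _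
  have hirrQ : Irreducible fQ :=
    (Polynomial.IsPrimitive.Int.irreducible_iff_irreducible_map_cast hm.isPrimitive).1 hirr
  have hC : fQ.map (algebraMap ℚ ℂ) = toC f := by
    rw [hfQ, Polynomial.map_map, toC]
    congr 1
  have hroot : ∀ l, aeval (x l) fQ = 0 := by
    intro l
    rw [aeval_def, ← eval_map, hC, hx, eval_prod]
    exact Finset.prod_eq_zero (Finset.mem_univ l) (by simp)
  have hrootC : ∀ l, (toC f).IsRoot (x l) := by
    intro l
    have := hroot l
    rwa [aeval_def, ← eval_map, hC] at this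
  have hmin : ∀ l, minpoly ℚ (x l) = fQ := fun l =>
    (minpoly.eq_of_irreducible_of_monic hirrQ (hroot l) hmQ).symm
  have hint : ∀ l, IsIntegral ℚ (x l) := fun l => ⟨fQ, hmQ, hroot l⟩
  have hxinj : Function.Injective x := by
    have hsep : fQ.Separable := hirrQ.separable
    have h2 : (fQ.map (algebraMap ℚ ℂ)).Separable := hsep.map
    rw [hC, hx] at h2
    exact separable_prod_X_sub_C_iff.1 h2
  -- two indices with equal powers
  have h' : ∃ i j, x i ^ p = x j ^ p ∧ i ≠ j := by
    by_contra hcon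
    push Not at hcon
    exact h (fun i j hij => hcon i j hij)
  obtain ⟨i, j, hij, hne⟩ := h'
  set a : ℂ := x i with ha
  set b : ℂ := a ^ p with hb
  have hbint : IsIntegral ℚ b := (hint i).pow p
  -- `a` is not in `ℚ(b)`
  have haF : a ∉ ℚ⟮b⟯ := by
    intro hmem
    rw [← IntermediateField.mem_toSubalgebra,
      IntermediateField.adjoin_simple_toSubalgebra_of_isAlgebraic hbint.isAlgebraic,
      Algebra.adjoin_singleton_eq_range_aeval] at hmem
    obtain ⟨r, hr⟩ := hmem
    have hr' : aeval b r = a := hr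
    have hz : aeval a (X - r.comp (X ^ p)) = 0 := by
      rw [map_sub, aeval_X, aeval_comp, map_pow, aeval_X, ← hb, hr', sub_self]
    have hd : fQ ∣ X - r.comp (X ^ p) := by
      rw [← hmin i]; exact minpoly.dvd ℚ _ hz
    have hall : ∀ l, x l = aeval (x l ^ p) r := by
      intro l
      obtain ⟨s, hs⟩ := hd
      have : aeval (x l) (X - r.comp (X ^ p)) = 0 := by
        rw [hs, map_mul, hroot l, zero_mul]
      rw [map_sub, aeval_X, aeval_comp, map_pow, aeval_X] at this
      exact sub_eq_zero.1 this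
    apply hne
    apply hxinj
    rw [hall i, hall j]
    have : x i ^ p = x j ^ p := hij
    rw [this]
  have hbK : b ∈ ℚ⟮a⟯ := by
    rw [hb]; exact pow_mem (mem_adjoin_simple_self ℚ a) p
  have hFK : ℚ⟮b⟯ ≤ ℚ⟮a⟯ := by
    rw [adjoin_simple_le_iff]; exact hbK
  -- `b` is not a `p`-th power in `F`
  have hpow : ∀ c : ℚ⟮b⟯, c ^ p ≠ (AdjoinSimple.gen ℚ b) := by
    intro c hc
    have hc' : (c : ℂ) ^ p = b := by
      have := congrArg (fun z : ℚ⟮b⟯ => (z : ℂ)) hc
      simpa using this
    have ha0 : a ≠ 0 := by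
      intro h0
      apply haF
      rw [h0]; exact zero_mem _
    have hc0 : (c : ℂ) ≠ 0 := by
      intro h0
      rw [h0, zero_pow hp.ne_zero] at hc'
      rw [← hc'] at hb
      exact ha0 (pow_eq_zero_iff hp.ne_zero |>.1 hb.symm)
    have hz : (a / c) ^ p = 1 := by
      rw [div_pow, hc', ← hb]
      exact div_self (by rw [hb]; exact pow_ne_zero _ ha0)
    have hz1 : a / c ≠ 1 := by
      intro h1
      apply haF
      rw [div_eq_one_iff_eq hc0] at h1
      rw [h1]; exact c.2
    rcases ht with h2 | hN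
    · subst h2
      have : a / c = 1 ∨ a / c = -1 := by
        exact sq_eq_one_iff.1 hz
      rcases this with h1 | h1
      · exact hz1 h1
      · apply haF
        rw [div_eq_iff hc0, neg_one_mul] at h1
        rw [h1]
        exact neg_mem c.2
    · have hprim : IsPrimitiveRoot (a / c) p := by
        refine ⟨hz, ?_⟩
        intro l hl
        have : Fact p.Prime := ⟨hp⟩
        have ho : orderOf (a / (c : ℂ)) = p := orderOf_eq_prime hz hz1
        rw [← ho]
        exact orderOf_dvd_of_pow_eq_one hl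
      refine hN a (hrootC i) (a / c) ?_ hprim
      exact div_mem (mem_adjoin_simple_self ℚ a) (hFK c.2)
  have hirrF : Irreducible (X ^ p - C (AdjoinSimple.gen ℚ b) : (ℚ⟮b⟯)[X]) :=
    X_pow_sub_C_irreducible_of_prime hp hpow
  have hminF : minpoly ℚ⟮b⟯ a = X ^ p - C (AdjoinSimple.gen ℚ b) := by
    refine (minpoly.eq_of_irreducible_of_monic hirrF ?_ (monic_X_pow_sub_C _ hp.ne_zero)).symm
    simp [hb]
  have hintF : IsIntegral ℚ⟮b⟯ a := (hint i).tower_top
  have e1 : Module.finrank ℚ ℚ⟮b⟯ = (minpoly ℚ b).natDegree := adjoin.finrank hbint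
  have e2 : Module.finrank ℚ⟮b⟯ (ℚ⟮b⟯⟮a⟯) = p := by
    rw [adjoin.finrank hintF, hminF, natDegree_X_pow_sub_C]
  have e3 : Module.finrank ℚ ℚ⟮a⟯ = fQ.natDegree := by
    rw [adjoin.finrank (hint i), hmin i]
  have e4 : (ℚ⟮b⟯⟮a⟯).restrictScalars ℚ = ℚ⟮a⟯ := by
    exact (IntermediateField.restrictScalars_adjoin_eq_sup ℚ ℚ⟮b⟯ {a}).trans
      (sup_eq_right.2 hFK)
  have e5 : Module.finrank ℚ (ℚ⟮b⟯⟮a⟯) = fQ.natDegree := by
    rw [← e3, ← e4]
    rfl
  have e6 : fQ.natDegree = (minpoly ℚ b).natDegree * p := by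
    rw [← e5, ← e1, ← e2, Module.finrank_mul_finrank]
  have hdvd : fQ ∣ expand ℚ p (minpoly ℚ b) := by
    rw [← hmin i]
    apply minpoly.dvd
    rw [expand_aeval]
    exact minpoly.aeval ℚ b
  have heq : expand ℚ p (minpoly ℚ b) = fQ := by
    refine (eq_of_monic_of_dvd_of_natDegree_le hmQ ((minpoly.monic hbint).expand hp.pos) hdvd ?_)
    rw [natDegree_expand, e6]
  refine ⟨contract p f, ?_⟩
  ext n
  rw [coeff_expand hp.pos]
  split_ifs with hn
  · rw [coeff_contract hp.ne_zero, Nat.div_mul_cancel hn]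
  · have : fQ.coeff n = 0 := by
      rw [← heq, coeff_expand hp.pos, if_neg hn]
    rw [hfQ, coeff_map, eq_intCast] at this
    exact_mod_cast this

end Pool.Agent.H831R2.LehG
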